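import Mathlib

/-!
# Statements of the pieces of the D0L first-difference project (MP_52de8b_co, frozen S08765)

Pieces (each is a `Prop`; finish a piece by proving `theorem jobX : JobX` in
`Pool/Agent/W2<you>/DL/JobX.lean`, importing this file).
Paper proofs are in the doc comments.
-/

set_option autoImplicit false
open Filter

namespace Pool.Agent.W2helper68.DL

/-- `len M t b` = number of letters after `t` steps from the letter `b`, `M` = incidence matrix. -/
def len {A : Type} [Fintype A] (M : A → A → ℕ) : ℕ → A → ℕ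
  | 0, _ => 1
  | t + 1, b => ∑ c, M b c * len M t c

/-- two-sided bound `lo * t^d β^t ≤ L t ≤ hi * t^d β^t` for `t ≥ 1`. -/
def Grow (L : ℕ → ℕ) (β : ℝ) (d : ℕ) : Prop :=
  ∃ lo hi : ℝ, 0 < lo ∧ 0 < hi ∧ ∀ t : ℕ, 1 ≤ t →
    lo * ((t : ℝ) ^ d * β ^ t) ≤ (L t : ℝ) ∧ (L t : ℝ) ≤ hi * ((t : ℝ) ^ d * β ^ t)

/-- **Job G** (growth of letters, Salomaa-Soittola).  Every nonerasing substitution has letters of
growth `t^d β^t`.

Paper proof.  The Boolean patterns of the powers of `M` form a finite semigroup, so some power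
`N ≥ 1` has idempotent pattern: `P b c := 0 < (M^N) b c` satisfies `P b c ↔ ∃ e, P b e ∧ P e c`.
`len M` is nondecreasing in `t` and `len M (t+1) b ≤ C * len M t b`, so it is enough to prove the
bound along multiples of `N` (with `β = β_N^(1/N)`); so work with `M^N`, i.e. assume `P` idempotent.
Strong induction on `#{c | P b c}`.  If `¬ P b b`: all `c` with `P b c` have smaller sets and `len
(t+1) b` is between the max and a multiple of the max of their lengths (compare pairs `(β, d)`
lexicographically).  If `P b b`: let `C = {c | P b c ∧ P c b}`; by idempotence `P e f` for all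
`e, f ∈ C` and all `e ∈ C` have the same exits `Out = {f ∉ C | P b f}`.  Let `c_t(e)` be the number of
letters after `t` steps when letters outside `C` are erased.  All `c_t(e)`, `e ∈ C`, are comparable up
to a constant (`c_t(e) ≥ c_t(e')/const` since `c_{t+1}(e) ≥ c_t(e')` and `c_{t+1} ≤ const * c_t`), the
maximum `c_t` is submultiplicative and supermultiplicative up to a constant, so by Fekete
(`Subadditive.tendsto_lim` in Mathlib) `c_t = Θ(λ^t)`, `λ ≥ 1`.  Then
`len t b = c_t(b) + Σ_{s<t} (exits at time s)` is `Θ(λ^t + Σ_{s<t} λ^s * max_{f ∈ Out} len (t-1-s) f)`,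
and with `max = Θ(t^{d'} β'^t)` this is `Θ(λ^t)`, `Θ(t^{d'+1} λ^t)` or `Θ(t^{d'} β'^t)` according to
`λ > β'`, `λ = β'`, `λ < β'`. -/
def JobG : Prop := ∀ (A : Type) [Fintype A] [DecidableEq A] (M : A → A → ℕ),
  (∀ b, ∃ c, 0 < M b c) → ∀ b, ∃ (β : ℝ) (d : ℕ), 1 ≤ β ∧ Grow (fun t => len M t b) β d

/-- **Job N** (counting).  `#{t | L t < n} = log n / log β - (d / log β) log log n + O(1)`. -/
def JobN : Prop := ∀ (L : ℕ → ℕ) (β : ℝ) (d : ℕ), StrictMono L → 1 < β → Grow L β d →
  ∃ K : ℝ, ∀ n : ℕ, 3 ≤ n →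
    |(Set.ncard {t : ℕ | L t < n} : ℝ)
      - (Real.log n / Real.log β - d / Real.log β * Real.log (Real.log n))| ≤ K

/-- Factors of length `n` of a one-sided infinite word (as in the frozen statement). -/
def Fac {k : ℕ} (u : ℕ → Fin k) (n : ℕ) : Set (List (Fin k)) :=
  Set.range (fun i : ℕ => List.ofFn (fun j : Fin n => u (i + j.val)))

/-- Length of `σ^m(b)` exactly as in the frozen statement. -/
def slen {k : ℕ} (σ : Fin k → List (Fin k)) (b : Fin k) (m : ℕ) : ℕ :=
  ((fun w : List (Fin k) => w.flatMap σ)^[m] [b]).length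

/-- **Job U** (unboundedness).  If `σ` is everywhere growing and not quasi-uniform then
`s_u(n) = p_u(n+1) - p_u(n)` is unbounded.  (Uses the growth of letters as hypothesis `hG`.)

Paper proof.  Let `(β_b, d_b)` be the growth of `b` and `B` the set of letters of lexicographically
smallest growth `(β, d)`, `β > 1`; write `g_t = t^d β^t`.  Letters of `σ(b)`, `b ∈ B`, are in `B`
(their growth is at most that of `b`).  `B` is not everything (not quasi-uniform), so `a ∉ B` (`a` has
the largest growth, as every letter occurs in some `σ^t(a)`).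
(1) Non-`B` letters occur infinitely often in `u`: otherwise there are `f` of them; the image of a
non-`B` letter contains a non-`B` letter (if all letters of `σ(c)` are in `B`, then `c` has growth
`≤ g_t`), so each of the `f` occurrences produces exactly one and `σ(c) = v c' v'`, `v, v' ∈ B*`; then
`|σ^t(c)| = 1 + Σ_{s<t} O(g_s) = O(g_t)` (as `β > 1`), contradiction.
(2) `B`-blocks (maximal factors of `u` over `B`) have unbounded lengths (`σ^t(b) ∈ B*` is a factor) and
each is preceded by a non-`B` letter (`u_0 = a`) and followed by one.  Pigeonhole: there are `c ∉ B`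
and `b₀ ∈ B` such that blocks preceded by `c` and starting with `b₀` have infinitely many lengths.
(3) Fix one such occurrence `c v₁ c₁` (`v₁ ∈ b₀B*`, `c₁ ∉ B`), and then `c v₂ c₂` with
`|v₂|` so large that `|σ^t(v₂)| ≥ |v₂| * lo * g_t > |σ^t(v₁)| + π_t(c₁)` for all `t ≥ 1`, where
`π_t(c₁)` = length of the maximal `B`-prefix of `σ^t(c₁)`; `π_{t+1}(c) ≤ |σ^t(w)| + π_t(c⁺)` where
`σ(c) = w c⁺ ...`, `w ∈ B*`, `c⁺ ∉ B`, so `π_t = O(Σ_{s<t} g_s) = O(g_t)`.
(4) So `σ^t(v₁c₁)` and `σ^t(v₂)` first differ at a position `ℓ_t` with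
`lo * g_t ≤ |σ^t(b₀)| ≤ ℓ_t ≤ |σ^t(v₁)| + π_t(c₁) ≤ C g_t`, and the common prefix `G_t` (length `ℓ_t`)
is over `B`.  Hence every suffix of `σ^t(c) G_t` is right special.
(5) The distance from the right end of `σ^t(c) G_t` to its last non-`B` letter is
`δ_t = ℓ_t + (length of maximal B-suffix of σ^t(c))`, `lo g_t ≤ δ_t ≤ C' g_t`.  Choose `T` with
`C' g_{kT} < lo g_{(k+1)T}` for all `k ≥ 1`, so the `δ_{kT}` are distinct.  For given `R` choose `k`
large and `n = |σ^{kT}(c)|`: since `|σ^t(c)| / g_t → ∞` (`c ∉ B`; growth lemma), `n > δ_{jT}` for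
`j = k, ..., k + R`, and the suffixes of length `n` of `σ^{jT}(c) G_{jT}` are `R + 1` distinct right
special words of length `n` (distance to the last non-`B` letter is `δ_{jT}`).
Hence `s_u(n) ≥ R + 1`. -/
def JobU : Prop := ∀ (k : ℕ) (σ : Fin k → List (Fin k)) (a : Fin k) (u : ℕ → Fin k),
    (∀ b : Fin k, Tendsto (fun m : ℕ => slen σ b m) atTop atTop) →
    (σ a).head? = some a → 2 ≤ (σ a).length →
    (∀ m i : ℕ, i < slen σ a m →
      ((fun w : List (Fin k) => w.flatMap σ)^[m] [a])[i]? = some (u i)) →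
    (∀ b : Fin k, ∃ i : ℕ, u i = b) →
    ¬ (∀ b c : Fin k, Asymptotics.IsTheta atTop
        (fun m : ℕ => (slen σ b m : ℝ)) (fun m : ℕ => (slen σ c m : ℝ))) →
    (∀ b : Fin k, ∃ (β : ℝ) (d : ℕ), 1 < β ∧ Grow (slen σ b) β d) →
    ∀ R : ℕ, ∃ n : ℕ, (R : ℝ) ≤ ((Fac u (n + 1)).ncard : ℝ) - ((Fac u n).ncard : ℝ)

/-- `φ` can be factored through an alphabet with at most `m` letters. -/
def FactorsThrough {A B : Type} (φ : A → List B) (m : ℕ) : Prop :=
  ∃ (C : Type) (_ : Fintype C) (α : A → List C) (μ : C → List B),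
    Fintype.card C ≤ m ∧ ∀ a, φ a = (α a).flatMap μ

/-- elementary morphism: no factorization through fewer than `#A` letters. -/
def Elementary {A B : Type} [Fintype A] (φ : A → List B) : Prop :=
  ∀ m : ℕ, m < Fintype.card A → ¬ FactorsThrough φ m

/-- `x = φ(y)` for bi-infinite words, with cut function `c` (block of `y p` is `[c p, c (p+1))`). -/
structure IsSub {A B : Type} (φ : A → List B) (y : ℤ → A) (x : ℤ → B) (c : ℤ → ℤ) : Prop where
  step : ∀ p : ℤ, c (p + 1) = c p + ((φ (y p)).length : ℤ)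
  val : ∀ (p : ℤ) (t : ℕ) (h : t < (φ (y p)).length), x (c p + t) = (φ (y p))[t]

/-- **Job D** (defect lemma; bounded delay of elementary morphisms; determinism of overhangs).

Paper proof.  *Finite graph lemma.*  `φ : A → List B` nonerasing, `S = Σ |φ a|`, `N ≥ (S+1)^2`.  Edge
`a – b` if there are words `u, v` such that `φ(a u)`, `φ(b v)` have length `≥ N` and the same prefix of
length `N`.  If `R : Finset A` meets every class of the equivalence generated by the edges
(`∀ a, ∃ r ∈ R, EqvGen Edge a r`), then `φ` factors through `#R` letters.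
Induction on `S`: if there is no edge between distinct letters, `R = univ`, trivial.  Else let
`x₀ – y₀` be an edge, `x₀ ≠ y₀`, `|φ x₀| ≤ |φ y₀|`, so `φ x₀` is a prefix of `φ y₀`.  If equal, identify
`y₀` with `x₀`.  Otherwise `φ y₀ = φ x₀ ++ w`, put `φ₁ y₀ = w`, `φ₁ = φ` elsewhere, `τ y₀ = [x₀, y₀]`,
`τ a = [a]` elsewhere: `φ = φ₁ ∘ τ`, `S₁ = S - |φ x₀|`, `N₁ = N - |φ x₀| ≥ (S₁+1)^2`.  With
`f a = head (τ a)` (`f y₀ = x₀`, else `a`) an edge `a – b` of `φ` gives an edge `f a – f b` of `φ₁`
(with `N ≥ N₁`), and cancelling `φ x₀` in the edge `x₀ – y₀` gives an edge `y₀ – b₀` with `b₀ ≠ y₀` in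
the image of `f`.  So `R₁ = f(R)` works for `φ₁`.
*Right decode* (DR): an edge between `a ≠ b` allows `#R = #A - 1`, contradiction with elementary.
*Left decode* (DL): the reversed morphism is elementary too.
*Overhang* (OV): for the nonempty overhang word `P = x[c q - h, c q)` consider `φ̂ : Option A → List B`,
`none ↦ P`; if `y p ≠ y p'` we have the edges `none – y p`, `none – y p'`, so `φ̂`, hence `φ`, factors
through `(#A + 1) - 2` letters.  `K` is the maximum over the finitely many words `P` of length `≤ H`. -/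
def JobD : Prop := ∀ (A B : Type) [Fintype A] [Fintype B] [DecidableEq A] [DecidableEq B]
  (φ : A → List B), (∀ a, φ a ≠ []) → Elementary φ → ∀ H : ℕ, ∃ K : ℕ,
  ∀ (y : ℤ → A) (x : ℤ → B) (c : ℤ → ℤ), IsSub φ y x c →
    (∀ p q : ℤ, (∀ t : ℕ, t < K → x (c p + t) = x (c q + t)) → y p = y q) ∧
    (∀ p q : ℤ, (∀ t : ℕ, t < K → x (c p - 1 - t) = x (c q - 1 - t)) → y (p - 1) = y (q - 1)) ∧
    (∀ h : ℕ, 1 ≤ h → h ≤ H → ∀ p q p' q' : ℤ,
      (∀ t : ℕ, t < K → x (c p + t) = x (c q - h + t)) →
      (∀ t : ℕ, t < K → x (c p' + t) = x (c q' - h + t)) →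
      (∀ t : ℕ, t < h → x (c q - h + t) = x (c q' - h + t)) → y p = y p')

end Pool.Agent.W2helper68.DL
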