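import Pool.Agent.W2helper68.DL.B1b

/-!
# Job B1: uniqueness and conclusion
-/

set_option autoImplicit false

namespace Pool.Agent.W2helper68.DL

section
variable {A B : Type}
variable {φ : A → List B} {y : ℤ → A} {x : ℤ → B} {c : ℤ → ℤ} {Λ K Q0 : ℤ} {D : ℕ}

/-- link an occurrence of `z2` with context in `P2` to an occurrence of `z1` -/
theorem link (hs : IsSub φ y x c) (h : Syn y x c Λ K Q0) (hD : K ≤ D)
    {P1 P2 : Finset (Ctx A D)} {z1 z2 : List A} (hg : gg y x c K P1 = gg y x c K P2)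
    (hz1 : z1 ∈ ZZ y D P1) (hz2 : z2 ∈ ZZ y D P2)
    (hw : lw y x c K P1 ++ z1.flatMap φ ++ rw' y x c K P1 =
      lw y x c K P2 ++ z2.flatMap φ ++ rw' y x c K P2) (κ : Ctx A D) (hκ : κ ∈ P2) :
    ∃ i1 i2 : ℤ, wd y i1 z1.length = z1 ∧ ctx y D i1 (i1 + z1.length) ∈ P1 ∧
      wd y i2 z2.length = z2 ∧ ctx y D i2 (i2 + z2.length) = κ ∧
      Agr x (c i1 - al y x c K P1) (c i2 - al y x c K P2) (-D)
        ((lw y x c K P1 ++ z1.flatMap φ ++ rw' y x c K P1).length + D) ∧
      c (i1 + z1.length) + br y x c K P1 = c i1 - al y x c K P1 +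
        (lw y x c K P1 ++ z1.flatMap φ ++ rw' y x c K P1).length ∧
      c (i2 + z2.length) + br y x c K P2 = c i2 - al y x c K P2 +
        (lw y x c K P1 ++ z1.flatMap φ ++ rw' y x c K P1).length := by
  classical
  have hK := h.K0
  have hal1 : al y x c K P1 ≤ D := by
    have := al_le (y := y) (x := x) (c := c) (K := K) (P := P1); omega
  have hbr1 : br y x c K P1 ≤ D := by
    have := br_le (y := y) (x := x) (c := c) (K := K) (P := P1); omega
  have hal2 : al y x c K P2 ≤ D := by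
    have := al_le (y := y) (x := x) (c := c) (K := K) (P := P2); omega
  have hbr2 : br y x c K P2 ≤ D := by
    have := br_le (y := y) (x := x) (c := c) (K := K) (P := P2); omega
  obtain ⟨i2, hi2, hc2⟩ := hz2 κ hκ
  have hmem : (gl y x c D (al y x c K P2) κ.1, gr y x c D (br y x c K P2) κ.2) ∈
      gg y x c K P1 := by
    rw [hg]; exact Finset.mem_image_of_mem _ hκ
  obtain ⟨κ1, hκ1, hκe⟩ := Finset.mem_image.1 hmem
  obtain ⟨i1, hi1, hc1⟩ := hz1 κ1 hκ1
  have hc1' : ctx y D i1 (i1 + z1.length) ∈ P1 := by rw [hc1]; exact hκ1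
  have hc2' : ctx y D i2 (i2 + z2.length) ∈ P2 := by rw [hc2]; exact hκ
  obtain ⟨e1, e2⟩ := posi (K := K) hs hi1 hc1'
  obtain ⟨f1, f2⟩ := posi (K := K) hs hi2 hc2'
  obtain ⟨e3, e4⟩ := lw_len_eq (x := x) (c := c) (K := K) hc1'
  obtain ⟨f3, f4⟩ := lw_len_eq (x := x) (c := c) (K := K) hc2'
  have elen : (lw y x c K P1 ++ z1.flatMap φ ++ rw' y x c K P1).length =
      al y x c K P1 + (z1.flatMap φ).length + br y x c K P1 := by
    simp only [List.length_append]; omega
  have flen : (lw y x c K P1 ++ z1.flatMap φ ++ rw' y x c K P1).length =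
      al y x c K P2 + (z2.flatMap φ).length + br y x c K P2 := by
    rw [hw]; simp only [List.length_append]; omega
  refine ⟨i1, i2, hi1, hc1', hi2, hc2, ?_, ?_, ?_⟩
  · have hL : lc x D (c i1 - al y x c K P1) = lc x D (c i2 - al y x c K P2) := by
      have := congrArg Prod.fst hκe
      simp only at this
      rw [← hc1, ← hc2, ctx_eq, ctx_eq] at this
      simp only at this
      rw [gl_eq h.toCut hal1, gl_eq h.toCut hal2] at this
      exact this
    have hR : rc x D (c (i1 + z1.length) + br y x c K P1) =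
        rc x D (c (i2 + z2.length) + br y x c K P2) := by
      have := congrArg Prod.snd hκe
      simp only at this
      rw [← hc1, ← hc2, ctx_eq, ctx_eq] at this
      simp only at this
      rw [gr_eq h.toCut hbr1, gr_eq h.toCut hbr2] at this
      exact this
    rw [lc_eq_iff] at hL
    rw [rc_eq_iff] at hR
    have hM : Agr x (c i1 - al y x c K P1) (c i2 - al y x c K P2) 0
        ((lw y x c K P1 ++ z1.flatMap φ ++ rw' y x c K P1).length) := by
      apply wd_eq_agr.1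
      rw [elen, e1, ← elen, flen, f1, hw]
    intro t ht1 ht2
    by_cases h1 : t < 0
    · exact hL t ht1 h1
    · by_cases h2 : t < ((lw y x c K P1 ++ z1.flatMap φ ++ rw' y x c K P1).length : ℤ)
      · exact hM t (by omega) h2
      · exact (hR.shift' (i' := c i1 - al y x c K P1) (j' := c i2 - al y x c K P2)
          (a' := (lw y x c K P1 ++ z1.flatMap φ ++ rw' y x c K P1).length)
          (b' := (lw y x c K P1 ++ z1.flatMap φ ++ rw' y x c K P1).length + D)
          (by omega) (by omega) (by omega)) t (by omega) ht2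
  · rw [elen, e2]; push_cast; ring
  · rw [flen, f2]; push_cast; ring

/-- non-periodicity of the extended window -/
theorem nper {Q : ℕ} (hQ : Q0 ≤ Q) (hD : K ≤ D) {w : List B} (hU : ¬ InU Q D w) {I : ℤ}
    (hI : wd x I w.length = w) : ¬ ∃ q, 1 ≤ q ∧ q ≤ Q0 ∧
      Per x q (I - D + K) (I - D + (w.length + 2 * D) - K) := by
  rintro ⟨q, h1, h2, h3⟩
  apply hU
  rw [← hI, inU_wd]
  exact ⟨q, h1, by omega, h3.mono (by omega) (by omega)⟩

theorem leftle (hs : IsSub φ y x c) (h : Syn y x c Λ K Q0) (hD : K ≤ D) {Q : ℕ} (hQ : Q0 ≤ Q)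
    {P1 P2 : Finset (Ctx A D)} {z1 z2 : List A} (hB : Bsp P2)
    (hg : gg y x c K P1 = gg y x c K P2)
    (hz1 : z1 ∈ ZZ y D P1) (hz2 : z2 ∈ ZZ y D P2)
    (hw : lw y x c K P1 ++ z1.flatMap φ ++ rw' y x c K P1 =
      lw y x c K P2 ++ z2.flatMap φ ++ rw' y x c K P2)
    (hn : 3 * K ≤ (lw y x c K P1 ++ z1.flatMap φ ++ rw' y x c K P1).length)
    (hU : ¬ InU Q D (lw y x c K P1 ++ z1.flatMap φ ++ rw' y x c K P1)) :
    al y x c K P2 ≤ al y x c K P1 := by
  by_contra hlt
  push Not at hlt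
  have hK := h.K0
  have hal2 : (al y x c K P2 : ℤ) ≤ K := by
    have := al_le (y := y) (x := x) (c := c) (K := K) (P := P2); omega
  have hbr1 : (br y x c K P1 : ℤ) ≤ K := by
    have := br_le (y := y) (x := x) (c := c) (K := K) (P := P1); omega
  set w := lw y x c K P1 ++ z1.flatMap φ ++ rw' y x c K P1 with hwdef
  -- for every κ ∈ P2: a letter of z1
  have key : ∀ κ ∈ P2, ∃ i1 q : ℤ, wd y i1 z1.length = z1 ∧ i1 < q ∧ q ≤ i1 + z1.length ∧
      c q = c i1 + (al y x c K P2 - al y x c K P1) ∧ (∀ h0 : 0 < D, κ.1 ⟨0, h0⟩ = y (q - 1)) := by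
    intro κ hκ
    obtain ⟨i1, i2, a1, a2, a3, a4, a5, a6, a7⟩ := link hs h hD hg hz1 hz2 hw κ hκ
    rw [← hwdef] at a5 a6 a7
    obtain ⟨b1, b2⟩ := posi (K := K) hs a1 a2
    have hwI2 : wd x (c i2 - al y x c K P2) w.length = w := by
      have hc2' : ctx y D i2 (i2 + z2.length) ∈ P2 := by rw [a4]; exact hκ
      obtain ⟨d1, d2⟩ := posi (K := K) hs a3 hc2'
      obtain ⟨f3, f4⟩ := lw_len_eq (x := x) (c := c) (K := K) hc2'
      have flen : w.length = al y x c K P2 + (z2.flatMap φ).length + br y x c K P2 := by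
        rw [hw]; simp only [List.length_append]; omega
      rw [flen, d1, ← hw]
    obtain ⟨q, q1, q2, q3⟩ := matchAll h (I1 := c i2 - al y x c K P2 - D)
      (I2 := c i1 - al y x c K P1 - D) (n := w.length + 2 * D) (p := i2)
      (a5.symm.shift' (by ring) (by omega) (by omega))
      (nper hQ hD hU hwI2) (by omega) (by omega)
    refine ⟨i1, q, a1, ?_, ?_, by omega, ?_⟩
    · rw [← h.lt_iff]; omega
    · rw [← h.le_iff]; omega
    · intro h0
      rw [← a4]
      simp only [ctx, Nat.cast_zero, sub_zero]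
      exact q3
  obtain ⟨⟨κ, hκ, κ', hκ', h0, hne⟩, -⟩ := hB
  apply hne
  obtain ⟨i, q, a1, a2, a3, a4, a5⟩ := key κ hκ
  obtain ⟨i', q', b1, b2, b3, b4, b5⟩ := key κ' hκ'
  rw [a5 h0, b5 h0]
  have hy : Agr y i i' 0 z1.length := wd_eq_agr.1 (by rw [a1, b1])
  have hc := (h.agr (p := i) (q := i') (a := 0) (b := z1.length) le_rfl (by omega) hy).1
    (q - i) (by omega) (by omega)
  rw [show i + (q - i) = q by ring] at hc
  have : i' + (q - i) = q' := h.inj (by omega)
  have hy' := hy (q - i - 1) (by omega) (by omega)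
  rw [show i + (q - i - 1) = q - 1 by ring, show i' + (q - i - 1) = q' - 1 by omega] at hy'
  exact hy'

theorem rightle (hs : IsSub φ y x c) (h : Syn y x c Λ K Q0) (hD : K ≤ D) {Q : ℕ} (hQ : Q0 ≤ Q)
    {P1 P2 : Finset (Ctx A D)} {z1 z2 : List A} (hB : Bsp P2)
    (hg : gg y x c K P1 = gg y x c K P2)
    (hz1 : z1 ∈ ZZ y D P1) (hz2 : z2 ∈ ZZ y D P2)
    (hw : lw y x c K P1 ++ z1.flatMap φ ++ rw' y x c K P1 =
      lw y x c K P2 ++ z2.flatMap φ ++ rw' y x c K P2)
    (hn : 3 * K ≤ (lw y x c K P1 ++ z1.flatMap φ ++ rw' y x c K P1).length)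
    (hU : ¬ InU Q D (lw y x c K P1 ++ z1.flatMap φ ++ rw' y x c K P1)) :
    br y x c K P2 ≤ br y x c K P1 := by
  by_contra hlt
  push Not at hlt
  have hK := h.K0
  have hbr2 : (br y x c K P2 : ℤ) ≤ K := by
    have := br_le (y := y) (x := x) (c := c) (K := K) (P := P2); omega
  have hal1 : (al y x c K P1 : ℤ) ≤ K := by
    have := al_le (y := y) (x := x) (c := c) (K := K) (P := P1); omega
  set w := lw y x c K P1 ++ z1.flatMap φ ++ rw' y x c K P1 with hwdef
  have key : ∀ κ ∈ P2, ∃ i1 q : ℤ, wd y i1 z1.length = z1 ∧ i1 ≤ q ∧ q < i1 + z1.length ∧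
      c q = c i1 - al y x c K P1 + w.length - br y x c K P2 ∧
      (∀ h0 : 0 < D, κ.2 ⟨0, h0⟩ = y q) := by
    intro κ hκ
    obtain ⟨i1, i2, a1, a2, a3, a4, a5, a6, a7⟩ := link hs h hD hg hz1 hz2 hw κ hκ
    rw [← hwdef] at a5 a6 a7
    obtain ⟨b1, b2⟩ := posi (K := K) hs a1 a2
    have hwI2 : wd x (c i2 - al y x c K P2) w.length = w := by
      have hc2' : ctx y D i2 (i2 + z2.length) ∈ P2 := by rw [a4]; exact hκ
      obtain ⟨d1, d2⟩ := posi (K := K) hs a3 hc2'
      obtain ⟨f3, f4⟩ := lw_len_eq (x := x) (c := c) (K := K) hc2'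
      have flen : w.length = al y x c K P2 + (z2.flatMap φ).length + br y x c K P2 := by
        rw [hw]; simp only [List.length_append]; omega
      rw [flen, d1, ← hw]
    obtain ⟨q, q1, q2, q3⟩ := matchAll h (I1 := c i2 - al y x c K P2 - D)
      (I2 := c i1 - al y x c K P1 - D) (n := w.length + 2 * D) (p := i2 + z2.length)
      (a5.symm.shift' (by ring) (by omega) (by omega))
      (nper hQ hD hU hwI2) (by omega) (by omega)
    refine ⟨i1, q, a1, ?_, ?_, by omega, ?_⟩
    · rw [← h.le_iff]; omega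
    · rw [← h.lt_iff]; omega
    · intro h0
      rw [← a4]
      simp only [ctx, Nat.cast_zero, add_zero]
      exact q2
  obtain ⟨-, ⟨κ, hκ, κ', hκ', h0, hne⟩⟩ := hB
  apply hne
  obtain ⟨i, q, a1, a2, a3, a4, a5⟩ := key κ hκ
  obtain ⟨i', q', b1, b2, b3, b4, b5⟩ := key κ' hκ'
  rw [a5 h0, b5 h0]
  have hy : Agr y i i' 0 z1.length := wd_eq_agr.1 (by rw [a1, b1])
  have hc := (h.agr (p := i) (q := i') (a := 0) (b := z1.length) le_rfl (by omega) hy).1
    (q - i) (by omega) (by omega)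
  rw [show i + (q - i) = q by ring] at hc
  have : i' + (q - i) = q' := h.inj (by omega)
  have hy' := hy (q - i) (by omega) (by omega)
  rw [show i + (q - i) = q by ring, this] at hy'
  exact hy'

theorem uniq (hs : IsSub φ y x c) (h : Syn y x c Λ K Q0) (hD : K ≤ D) {Q : ℕ} (hQ : Q0 ≤ Q)
    {P1 P2 : Finset (Ctx A D)} {z1 z2 : List A} (hB1 : Bsp P1) (hB : Bsp P2)
    (hg : gg y x c K P1 = gg y x c K P2)
    (hz1 : z1 ∈ ZZ y D P1) (hz2 : z2 ∈ ZZ y D P2)
    (hw : lw y x c K P1 ++ z1.flatMap φ ++ rw' y x c K P1 =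
      lw y x c K P2 ++ z2.flatMap φ ++ rw' y x c K P2)
    (hn : 3 * K ≤ (lw y x c K P1 ++ z1.flatMap φ ++ rw' y x c K P1).length)
    (hU : ¬ InU Q D (lw y x c K P1 ++ z1.flatMap φ ++ rw' y x c K P1)) :
    z1 = z2 ∧ lw y x c K P1 = lw y x c K P2 ∧ rw' y x c K P1 = rw' y x c K P2 := by
  have hK := h.K0
  have hα : al y x c K P1 = al y x c K P2 := by
    apply le_antisymm
    · exact leftle hs h hD hQ hB1 hg.symm hz2 hz1 hw.symm (by rw [← hw]; exact hn)
        (by rw [← hw]; exact hU)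
    · exact leftle hs h hD hQ hB hg hz1 hz2 hw hn hU
  have hβ : br y x c K P1 = br y x c K P2 := by
    apply le_antisymm
    · exact rightle hs h hD hQ hB1 hg.symm hz2 hz1 hw.symm (by rw [← hw]; exact hn)
        (by rw [← hw]; exact hU)
    · exact rightle hs h hD hQ hB hg hz1 hz2 hw hn hU
  have hB' := hB
  obtain ⟨⟨κ, hκ, -⟩, -⟩ := hB'
  obtain ⟨i1, i2, a1, a2, a3, a4, a5, a6, a7⟩ := link hs h hD hg hz1 hz2 hw κ hκ
  have hr := match_right h.toCut K h.DR (i := c i1 - al y x c K P1 - D)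
    (j := c i2 - al y x c K P2 - D)
    (n := (lw y x c K P1 ++ z1.flatMap φ ++ rw' y x c K P1).length + 2 * D) (p := i1) (q := i2)
    (a5.shift' (by ring) (by omega) (by omega)) (by omega) (by omega) z1.length (by
      intro r hr
      have := h.mono (show i1 + (r : ℤ) ≤ i1 + z1.length by omega)
      omega)
  obtain ⟨r1, r2⟩ := hr
  have hlen : i2 + (z1.length : ℤ) = i2 + z2.length := h.inj (by omega)
  have hlen' : z1.length = z2.length := by omega
  have hz : z1 = z2 := by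
    rw [← a1, ← a3, ← hlen', wd_eq_iff]
    exact r2
  subst hz
  have hc2' : ctx y D i2 (i2 + z1.length) ∈ P2 := by rw [a4]; exact hκ
  obtain ⟨e3, e4⟩ := lw_len_eq (x := x) (c := c) (K := K) a2
  obtain ⟨f3, f4⟩ := lw_len_eq (x := x) (c := c) (K := K) hc2'
  rw [List.append_assoc, List.append_assoc] at hw
  obtain ⟨g1, g2⟩ := List.append_inj hw (by omega)
  obtain ⟨g3, g4⟩ := List.append_inj g2 rfl
  exact ⟨rfl, g1, g4⟩

end

theorem jobB1 : JobB1 := by
  intro A B _ _ _ _ φ y x c Λ K Q0 hs h Q hQ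
  have hK := h.K0
  have hΛ := h.two_le
  refine ⟨K.toNat, fun D hD => ?_⟩
  have hD' : K ≤ D := by omega
  refine ⟨gg y x c K, lw y x c K, rw' y x c K, (3 * K + Λ).toNat, ?_, ?_, ?_, ?_, ?_⟩
  · intro P
    have h1 := lw_len (y := y) (x := x) (c := c) (K := K) (P := P)
    have h2 := rw'_len (y := y) (x := x) (c := c) (K := K) (P := P)
    omega
  · intro P z _ _ i hi hc
    obtain ⟨e1, e2⟩ := posi (K := K) hs hi hc
    obtain ⟨e3, e4⟩ := lw_len_eq (x := x) (c := c) (K := K) hc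
    have elen : (lw y x c K P ++ z.flatMap φ ++ rw' y x c K P).length =
        al y x c K P + (z.flatMap φ).length + br y x c K P := by
      simp only [List.length_append]; omega
    rw [elen, e3]; exact e1
  · intro P z hB hz
    exact fwd hs h hD' hB hz
  · intro P w hB hw hn hU
    exact bwd hs h hD' hQ hB hw (by omega) hU
  · intro P1 P2 z1 z2 hB1 hB2 hg hz1 hz2 hw hn hU
    exact uniq hs h hD' hQ hB1 hB2 hg hz1 hz2 hw (by omega) hU

end Pool.Agent.W2helper68.DL
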