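import Pool.Agent.W2helper68.DL.Main1

/-!
# Assembly of the pieces
-/

set_option autoImplicit false
open Filter

namespace Pool.Agent.W2helper68.DL

theorem fac_mono {k : ℕ} (u : ℕ → Fin k) (n : ℕ) : (Fac u n).ncard ≤ (Fac u (n + 1)).ncard := by
  have hfin : (Fac u (n + 1)).Finite := by
    apply (List.finite_length_eq (Fin k) (n + 1)).subset
    rintro w ⟨i, rfl⟩
    simp
  have : Fac u n ⊆ List.dropLast '' Fac u (n + 1) := by
    rintro w ⟨i, rfl⟩
    refine ⟨_, ⟨i, rfl⟩, ?_⟩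
    apply List.ext_getElem
    · simp
    · intro t h1 h2
      rw [List.getElem_dropLast]
      simp only [List.getElem_ofFn]
  calc (Fac u n).ncard ≤ (List.dropLast '' Fac u (n + 1)).ncard :=
        Set.ncard_le_ncard this (hfin.image _)
    _ ≤ _ := Set.ncard_image_le hfin

theorem main_of_jobs (hG : JobG) (hU : JobU) (hD : JobD) (hA : JobA) (hB1 : JobB1) (hB2 : JobB2)
    (hC : JobC) (hC2 : JobC2) (hE : JobE) (hE2 : JobE2) (hR : JobR) (hT : JobT) (hF : JobF) :
  ∀ (k : ℕ) (σ : Fin k → List (Fin k)) (a : Fin k) (u : ℕ → Fin k),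
    (∀ b : Fin k, Tendsto
      (fun m : ℕ => ((fun w : List (Fin k) => w.flatMap σ)^[m] [b]).length) atTop atTop) →
    (σ a).head? = some a → 2 ≤ (σ a).length →
    (∀ m i : ℕ, i < ((fun w : List (Fin k) => w.flatMap σ)^[m] [a]).length →
      ((fun w : List (Fin k) => w.flatMap σ)^[m] [a])[i]? = some (u i)) →
    (∀ b : Fin k, ∃ i : ℕ, u i = b) →
    ¬ (∀ b c : Fin k, Asymptotics.IsTheta atTop
        (fun m : ℕ => (((fun w : List (Fin k) => w.flatMap σ)^[m] [b]).length : ℝ))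
        (fun m : ℕ => (((fun w : List (Fin k) => w.flatMap σ)^[m] [c]).length : ℝ))) →
    (∃ p N : ℕ, 0 < p ∧ ∀ i : ℕ, N ≤ i → u (i + p) = u i) ∨
    ∃ C : ℝ, 0 < C ∧
      (Asymptotics.IsEquivalent atTop
        (fun n : ℕ =>
          ((Set.range (fun i : ℕ => List.ofFn (fun j : Fin (n + 1) => u (i + j.val)))).ncard : ℝ)
          - ((Set.range (fun i : ℕ => List.ofFn (fun j : Fin n => u (i + j.val)))).ncard : ℝ))
        (fun n : ℕ => C * Real.log (Real.log (n : ℝ))) ∨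
       Asymptotics.IsEquivalent atTop
        (fun n : ℕ =>
          ((Set.range (fun i : ℕ => List.ofFn (fun j : Fin (n + 1) => u (i + j.val)))).ncard : ℝ)
          - ((Set.range (fun i : ℕ => List.ofFn (fun j : Fin n => u (i + j.val)))).ncard : ℝ))
        (fun n : ℕ => C * Real.log (n : ℝ))) := by
  intro k σ a u hgrow hpro h2 hu hall hnq
  right
  obtain ⟨Cc, _, _, φ, ψ, y, c, e, hφ2, hψ2, hEφ, hEψ, hsφ, hsψ⟩ :=
    hE k σ a u hgrow hpro h2 hu hall
  -- constants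
  set Λ : ℤ := (∑ b, ((φ b).length : ℤ)) + ∑ b, ((ψ b).length : ℤ) with hΛ
  have hΛφ : ∀ b, ((φ b).length : ℤ) ≤ Λ := by
    intro b
    have h1 := Finset.single_le_sum (f := fun b => ((φ b).length : ℤ)) (fun i _ => by positivity)
      (Finset.mem_univ b)
    have h3 : 0 ≤ ∑ b, ((ψ b).length : ℤ) := Finset.sum_nonneg (fun i _ => by positivity)
    omega
  have hΛψ : ∀ b, ((ψ b).length : ℤ) ≤ Λ := by
    intro b
    have h1 := Finset.single_le_sum (f := fun b => ((ψ b).length : ℤ)) (fun i _ => by positivity)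
      (Finset.mem_univ b)
    have h3 : 0 ≤ ∑ b, ((φ b).length : ℤ) := Finset.sum_nonneg (fun i _ => by positivity)
    omega
  obtain ⟨K1, hd1⟩ := isSub_dec hD hEφ hφ2 hsφ hΛφ
  obtain ⟨K2, hd2⟩ := isSub_dec hD hEψ hψ2 hsψ hΛψ
  obtain ⟨K1', Q1, hs1⟩ := hd1.syn
  obtain ⟨K2', Q2, hs2⟩ := hd2.syn
  have hS1 : Syn y (ext u) c Λ (max K1' K2') (max Q1 Q2) :=
    hs1 _ _ (le_max_left _ _) (le_max_left _ _)
  have hS2 : Syn y y e Λ (max K1' K2') (max Q1 Q2) :=
    hs2 _ _ (le_max_right _ _) (le_max_right _ _)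
  have hgood := hF hA hB1 hB2 hC hC2 hR hT Cc (Option (Fin k)) φ ψ y (ext u) c e Λ _ _ hsφ hsψ
    hS2 hS1
  have hgood2 : GoodF (fun n => ((Fac u (n + 1)).ncard : ℝ) - ((Fac u n).ncard : ℝ)) := by
    refine (hgood.add_const (-1)).congr (fun n => ?_)
    rw [hE2, hE2]
    push_cast
    ring
  have hunb := hU k σ a u hgrow hpro h2 hu hall hnq (fun b => slen_grow σ hG hgrow b)
  exact goodF_concl hgood2 (fun n => by
    have := fac_mono u n
    have h3 : ((Fac u n).ncard : ℝ) ≤ ((Fac u (n + 1)).ncard : ℝ) := by exact_mod_cast this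
    exact sub_nonneg.2 h3) hunb

end Pool.Agent.W2helper68.DL
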