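import Pool.Agent.W2helper68.DL.Words

/-!
# Job B1: one desubstitution step for words outside `U`
-/

set_option autoImplicit false

namespace Pool.Agent.W2helper68.DL

section
variable {A B : Type}

/-- left context -/
def lc (y : ℤ → A) (D : ℕ) (i : ℤ) : Fin D → A := fun s => y (i - 1 - (s : ℕ))
/-- right context -/
def rc (y : ℤ → A) (D : ℕ) (j : ℤ) : Fin D → A := fun s => y (j + (s : ℕ))

theorem ctx_eq (y : ℤ → A) (D : ℕ) (i j : ℤ) : ctx y D i j = (lc y D i, rc y D j) := rfl

theorem lc_eq_iff {y : ℤ → A} {D : ℕ} {i i' : ℤ} :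
    lc y D i = lc y D i' ↔ Agr y i i' (-D) 0 := by
  constructor
  · intro h t h1 h2
    have := congrFun h ⟨(-1 - t).toNat, by omega⟩
    simp only [lc] at this
    rw [show ((-1 - t).toNat : ℤ) = -1 - t by omega] at this
    rw [show i + t = i - 1 - (-1 - t) by ring, show i' + t = i' - 1 - (-1 - t) by ring]
    exact this
  · intro h
    funext s
    have := h (-1 - (s : ℕ)) (by have := s.2; omega) (by omega)
    simp only [lc]
    rw [show i - 1 - ((s : ℕ) : ℤ) = i + (-1 - (s : ℕ)) by ring,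
      show i' - 1 - ((s : ℕ) : ℤ) = i' + (-1 - (s : ℕ)) by ring]
    exact this

theorem rc_eq_iff {y : ℤ → A} {D : ℕ} {j j' : ℤ} :
    rc y D j = rc y D j' ↔ Agr y j j' 0 D := by
  constructor
  · intro h t h1 h2
    have := congrFun h ⟨t.toNat, by omega⟩
    simp only [rc] at this
    rwa [show (t.toNat : ℤ) = t by omega] at this
  · intro h
    funext s
    exact h (s : ℕ) (by omega) (by have := s.2; omega)

variable {φ : A → List B} {y : ℤ → A} {x : ℤ → B} {c : ℤ → ℤ} {Λ K Q0 : ℤ} {D : ℕ}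

theorem Cut.lcx (h : Cut y x c Λ) {i i' : ℤ} (e : lc y D i = lc y D i') :
    Agr x (c i) (c i') (-(2 * D)) 0 := by
  have h1 := (h.agr (p := i) (q := i') (a := -D) (b := 0) (by omega) le_rfl
    (lc_eq_iff.1 e)).2
  have h2 := h.add_le (show i + -(D : ℤ) ≤ i by omega)
  exact h1.mono (by omega) (by simp)

theorem Cut.rcx (h : Cut y x c Λ) {i i' : ℤ} (e : rc y D i = rc y D i') :
    Agr x (c i) (c i') 0 (2 * D) := by
  have h1 := (h.agr (p := i) (q := i') (a := 0) (b := D) le_rfl (by omega)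
    (rc_eq_iff.1 e)).2
  have h2 := h.add_le (show i ≤ i + (D : ℤ) by omega)
  exact h1.mono (by simp) (by omega)

/-- `a` letters to the left of the cuts agree over all left contexts in `P` -/
def AgL (y : ℤ → A) (x : ℤ → B) (c : ℤ → ℤ) (P : Finset (Ctx A D)) (a : ℕ) : Prop :=
  ∀ i i' : ℤ, (∃ κ ∈ P, lc y D i = κ.1) → (∃ κ ∈ P, lc y D i' = κ.1) → Agr x (c i) (c i') (-a) 0

def AgR (y : ℤ → A) (x : ℤ → B) (c : ℤ → ℤ) (P : Finset (Ctx A D)) (a : ℕ) : Prop :=
  ∀ i i' : ℤ, (∃ κ ∈ P, rc y D i = κ.2) → (∃ κ ∈ P, rc y D i' = κ.2) → Agr x (c i) (c i') 0 a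

open Classical in
noncomputable def al (y : ℤ → A) (x : ℤ → B) (c : ℤ → ℤ) (K : ℤ) (P : Finset (Ctx A D)) : ℕ :=
  Nat.findGreatest (AgL y x c P) K.toNat

open Classical in
noncomputable def br (y : ℤ → A) (x : ℤ → B) (c : ℤ → ℤ) (K : ℤ) (P : Finset (Ctx A D)) : ℕ :=
  Nat.findGreatest (AgR y x c P) K.toNat

variable {P : Finset (Ctx A D)}

theorem AgL_al : AgL y x c P (al y x c K P) := by
  classical
  unfold al
  refine Nat.findGreatest_spec (m := 0) (Nat.zero_le _) ?_
  intro i i' _ _ t h1 h2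
  simp at h1; omega

theorem AgR_br : AgR y x c P (br y x c K P) := by
  classical
  unfold br
  refine Nat.findGreatest_spec (m := 0) (Nat.zero_le _) ?_
  intro i i' _ _ t h1 h2
  simp at h2; omega

theorem al_le : al y x c K P ≤ K.toNat := by
  classical
  exact Nat.findGreatest_le _

theorem br_le : br y x c K P ≤ K.toNat := by
  classical
  exact Nat.findGreatest_le _

theorem al_eq {a : ℕ} (h1 : (a : ℤ) < K) (h2 : AgL y x c P a) (h3 : ¬ AgL y x c P (a + 1)) :
    al y x c K P = a := by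
  classical
  apply le_antisymm
  · by_contra hc
    push Not at hc
    apply h3
    intro i i' hi hi'
    exact (AgL_al (K := K) i i' hi hi').mono (by omega) le_rfl
  · exact Nat.le_findGreatest (by omega) h2

theorem br_eq {a : ℕ} (h1 : (a : ℤ) < K) (h2 : AgR y x c P a) (h3 : ¬ AgR y x c P (a + 1)) :
    br y x c K P = a := by
  classical
  apply le_antisymm
  · by_contra hc
    push Not at hc
    apply h3
    intro i i' hi hi'
    exact (AgR_br (K := K) i i' hi hi').mono le_rfl (by omega)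
  · exact Nat.le_findGreatest (by omega) h2

open Classical in
noncomputable def lw (y : ℤ → A) (x : ℤ → B) (c : ℤ → ℤ) (K : ℤ) (P : Finset (Ctx A D)) : List B :=
  if h : ∃ i, ∃ κ ∈ P, lc y D i = κ.1 then wd x (c h.choose - al y x c K P) (al y x c K P) else []

open Classical in
noncomputable def rw' (y : ℤ → A) (x : ℤ → B) (c : ℤ → ℤ) (K : ℤ) (P : Finset (Ctx A D)) : List B :=
  if h : ∃ i, ∃ κ ∈ P, rc y D i = κ.2 then wd x (c h.choose) (br y x c K P) else []

theorem lw_eq {i : ℤ} (hi : ∃ κ ∈ P, lc y D i = κ.1) :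
    lw y x c K P = wd x (c i - al y x c K P) (al y x c K P) := by
  classical
  have h : ∃ i, ∃ κ ∈ P, lc y D i = κ.1 := ⟨i, hi⟩
  unfold lw
  rw [dif_pos h, wd_eq_agr]
  exact (AgL_al (K := K) _ _ h.choose_spec hi).shift' (by ring) (by omega) (by omega)

theorem rw'_eq {i : ℤ} (hi : ∃ κ ∈ P, rc y D i = κ.2) :
    rw' y x c K P = wd x (c i) (br y x c K P) := by
  classical
  have h : ∃ i, ∃ κ ∈ P, rc y D i = κ.2 := ⟨i, hi⟩
  unfold rw'
  rw [dif_pos h, wd_eq_agr]
  exact (AgR_br (K := K) _ _ h.choose_spec hi)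

theorem lw_len : (lw y x c K P).length ≤ K.toNat := by
  classical
  by_cases h : ∃ i, ∃ κ ∈ P, lc y D i = κ.1
  · obtain ⟨i, hi⟩ := h
    rw [lw_eq hi, wd_length]; exact al_le
  · unfold lw; rw [dif_neg h]; simp

theorem rw'_len : (rw' y x c K P).length ≤ K.toNat := by
  classical
  by_cases h : ∃ i, ∃ κ ∈ P, rc y D i = κ.2
  · obtain ⟨i, hi⟩ := h
    rw [rw'_eq hi, wd_length]; exact br_le
  · unfold rw'; rw [dif_neg h]; simp

open Classical in
noncomputable def gl (y : ℤ → A) (x : ℤ → B) (c : ℤ → ℤ) (D : ℕ) (a : ℕ) (v : Fin D → A) :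
    Fin D → B :=
  if h : ∃ i, lc y D i = v then lc x D (c h.choose - a) else fun _ => x 0

open Classical in
noncomputable def gr (y : ℤ → A) (x : ℤ → B) (c : ℤ → ℤ) (D : ℕ) (a : ℕ) (v : Fin D → A) :
    Fin D → B :=
  if h : ∃ i, rc y D i = v then rc x D (c h.choose + a) else fun _ => x 0

theorem gl_eq (h : Cut y x c Λ) {a : ℕ} (ha : a ≤ D) (i : ℤ) :
    gl y x c D a (lc y D i) = lc x D (c i - a) := by
  classical
  have he : ∃ i', lc y D i' = lc y D i := ⟨i, rfl⟩
  unfold gl
  rw [dif_pos he, lc_eq_iff]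
  exact (h.lcx he.choose_spec).shift' (by ring) (by omega) (by omega)

theorem gr_eq (h : Cut y x c Λ) {a : ℕ} (ha : a ≤ D) (i : ℤ) :
    gr y x c D a (rc y D i) = rc x D (c i + a) := by
  classical
  have he : ∃ i', rc y D i' = rc y D i := ⟨i, rfl⟩
  unfold gr
  rw [dif_pos he, rc_eq_iff]
  exact (h.rcx he.choose_spec).shift' (by ring) (by omega) (by omega)

open Classical in
noncomputable def gg (y : ℤ → A) (x : ℤ → B) (c : ℤ → ℤ) (K : ℤ) (P : Finset (Ctx A D)) :
    Finset (Ctx B D) :=
  P.image (fun κ => (gl y x c D (al y x c K P) κ.1, gr y x c D (br y x c K P) κ.2))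

/-- position form of the extended image -/
theorem posi (hs : IsSub φ y x c) {z : List A} {i : ℤ}
    (hz : wd y i z.length = z) (hc : ctx y D i (i + z.length) ∈ P) :
    wd x (c i - al y x c K P) (al y x c K P + (z.flatMap φ).length + br y x c K P)
      = lw y x c K P ++ z.flatMap φ ++ rw' y x c K P ∧
    c (i + z.length) = c i + ((z.flatMap φ).length : ℤ) := by
  have h1 : ∃ κ ∈ P, lc y D i = κ.1 := ⟨_, hc, rfl⟩
  have h2 : ∃ κ ∈ P, rc y D (i + z.length) = κ.2 := ⟨_, hc, rfl⟩
  obtain ⟨h3, h4⟩ := hs.flat i z.length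
  rw [hz] at h3 h4
  refine ⟨?_, h3⟩
  rw [lw_eq h1, rw'_eq h2, wd_add, wd_add, h3]
  congr 1
  · congr 1
    rw [show c i - (al y x c K P : ℤ) + (al y x c K P : ℕ) = c i by ring]
    exact h4
  · congr 1
    push_cast; ring

theorem lw_len_eq {z : List A} {i : ℤ} (hc : ctx y D i (i + z.length) ∈ P) :
    (lw y x c K P).length = al y x c K P ∧ (rw' y x c K P).length = br y x c K P := by
  have h1 : ∃ κ ∈ P, lc y D i = κ.1 := ⟨_, hc, rfl⟩
  have h2 : ∃ κ ∈ P, rc y D (i + z.length) = κ.2 := ⟨_, hc, rfl⟩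
  rw [lw_eq h1, rw'_eq h2, wd_length, wd_length]
  exact ⟨rfl, rfl⟩

/-- forward step -/
theorem fwd (hs : IsSub φ y x c) (h : Syn y x c Λ K Q0) (hD : K ≤ D) {z : List A}
    (hB : Bsp P) (hz : z ∈ ZZ y D P) :
    Bsp (gg y x c K P) ∧ lw y x c K P ++ z.flatMap φ ++ rw' y x c K P ∈ ZZ x D (gg y x c K P) := by
  classical
  have hK := h.K0
  have hal : al y x c K P ≤ D := by have := al_le (y := y) (x := x) (c := c) (K := K) (P := P); omega
  have hbr : br y x c K P ≤ D := by have := br_le (y := y) (x := x) (c := c) (K := K) (P := P); omega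
  constructor
  · obtain ⟨⟨κ, hκ, κ', hκ', hD0, hne⟩, ⟨ρ, hρ, ρ', hρ', hD1, hne'⟩⟩ := hB
    constructor
    · obtain ⟨i, -, hi⟩ := hz κ hκ
      obtain ⟨i', -, hi'⟩ := hz κ' hκ'
      have li : lc y D i = κ.1 := congrArg Prod.fst hi
      have li' : lc y D i' = κ'.1 := congrArg Prod.fst hi'
      have hyne : y (i - 1) ≠ y (i' - 1) := by
        rw [← li, ← li'] at hne
        simpa [lc] using hne
      have hlt : (al y x c K P : ℤ) < K := by
        by_contra hc
        apply hyne
        apply h.DL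
        exact (AgL_al (K := K) i i' ⟨κ, hκ, li⟩ ⟨κ', hκ', li'⟩).mono (by omega) le_rfl
      have hng : ¬ AgL y x c P (al y x c K P + 1) := by
        have := Nat.findGreatest_is_greatest (P := AgL y x c P) (n := K.toNat)
          (k := al y x c K P + 1) (by unfold al; convert Nat.lt_succ_self _)
          (by omega)
        exact this
      unfold AgL at hng
      push Not at hng
      obtain ⟨j, j', hj, hj', hnag⟩ := hng
      unfold Agr at hnag
      push Not at hnag
      obtain ⟨t, ht1, ht2, ht3⟩ := hnag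
      have htt : t = -((al y x c K P : ℤ) + 1) := by
        by_contra hc
        apply ht3
        refine AgL_al (K := K) j j' hj hj' t ?_ ht2
        push_cast at ht1; omega
      obtain ⟨μ, hμ, hμe⟩ := hj
      obtain ⟨μ', hμ', hμe'⟩ := hj'
      refine ⟨_, Finset.mem_image_of_mem _ hμ, _, Finset.mem_image_of_mem _ hμ', hD0, ?_⟩
      simp only
      rw [← hμe, ← hμe', gl_eq h.toCut hal, gl_eq h.toCut hal]
      simp only [lc]
      rw [htt] at ht3
      intro e
      apply ht3
      convert e using 2 <;> push_cast <;> ring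
    · obtain ⟨i, hzi, hi⟩ := hz ρ hρ
      obtain ⟨i', hzi', hi'⟩ := hz ρ' hρ'
      have li : rc y D (i + z.length) = ρ.2 := congrArg Prod.snd hi
      have li' : rc y D (i' + z.length) = ρ'.2 := congrArg Prod.snd hi'
      have hyne : y (i + z.length) ≠ y (i' + z.length) := by
        rw [← li, ← li'] at hne'
        simpa [rc] using hne'
      have hlt : (br y x c K P : ℤ) < K := by
        by_contra hc
        apply hyne
        apply h.DR
        exact (AgR_br (K := K) _ _ ⟨ρ, hρ, li⟩ ⟨ρ', hρ', li'⟩).mono le_rfl (by omega)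
      have hng : ¬ AgR y x c P (br y x c K P + 1) := by
        have := Nat.findGreatest_is_greatest (P := AgR y x c P) (n := K.toNat)
          (k := br y x c K P + 1) (by unfold br; convert Nat.lt_succ_self _)
          (by omega)
        exact this
      unfold AgR at hng
      push Not at hng
      obtain ⟨j, j', hj, hj', hnag⟩ := hng
      unfold Agr at hnag
      push Not at hnag
      obtain ⟨t, ht1, ht2, ht3⟩ := hnag
      have htt : t = (br y x c K P : ℤ) := by
        by_contra hc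
        apply ht3
        refine AgR_br (K := K) j j' hj hj' t ht1 ?_
        push_cast at ht2; omega
      obtain ⟨μ, hμ, hμe⟩ := hj
      obtain ⟨μ', hμ', hμe'⟩ := hj'
      refine ⟨_, Finset.mem_image_of_mem _ hμ, _, Finset.mem_image_of_mem _ hμ', hD0, ?_⟩
      simp only
      rw [← hμe, ← hμe', gr_eq h.toCut hbr, gr_eq h.toCut hbr]
      simp only [rc]
      rw [htt] at ht3
      intro e
      apply ht3
      convert e using 2 <;> push_cast <;> ring
  · intro κ' hκ'
    obtain ⟨κ, hκ, rfl⟩ := Finset.mem_image.1 hκ'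
    obtain ⟨i, hzi, hi⟩ := hz κ hκ
    have hc : ctx y D i (i + z.length) ∈ P := by rw [hi]; exact hκ
    obtain ⟨e1, e2⟩ := posi (K := K) hs hzi hc
    obtain ⟨e3, e4⟩ := lw_len_eq (x := x) (c := c) (K := K) hc
    have elen : (lw y x c K P ++ z.flatMap φ ++ rw' y x c K P).length =
        al y x c K P + (z.flatMap φ).length + br y x c K P := by
      simp only [List.length_append]; omega
    refine ⟨c i - al y x c K P, ?_, ?_⟩
    · rw [elen]; exact e1
    · rw [elen, ctx_eq, ← hi, ctx_eq]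
      simp only
      rw [gl_eq h.toCut hal, gr_eq h.toCut hbr, e2]
      congr 2
      push_cast; ring

end

end Pool.Agent.W2helper68.DL
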