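import Pool.Agent.W2helper68.DL.B1

/-!
# Job B1: backward step and uniqueness
-/

set_option autoImplicit false

namespace Pool.Agent.W2helper68.DL

section
variable {A B : Type}
variable {φ : A → List B} {y : ℤ → A} {x : ℤ → B} {c : ℤ → ℤ} {Λ K Q0 : ℤ} {D : ℕ}

theorem matchAll (h : Syn y x c Λ K Q0) {I1 I2 n : ℤ} (hag : Agr x I1 I2 0 n)
    (hper : ¬ ∃ q, 1 ≤ q ∧ q ≤ Q0 ∧ Per x q (I1 + K) (I1 + n - K)) {p : ℤ}
    (h1 : I1 + K ≤ c p) (h2 : c p ≤ I1 + n - K) :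
    ∃ q, c q - I2 = c p - I1 ∧ y p = y q ∧ y (p - 1) = y (q - 1) := by
  have hK := h.K0
  obtain ⟨q, hq⟩ := h.SC I1 I2 n hag hper p h1 h2
  refine ⟨q, hq, h.DR _ _ (hag.shift' (by omega) (by omega) (by omega)),
    h.DL _ _ (hag.shift' (by omega) (by omega) (by omega))⟩

theorem bwd (hs : IsSub φ y x c) (h : Syn y x c Λ K Q0) (hD : K ≤ D) {Q : ℕ} (hQ : Q0 ≤ Q)
    {P : Finset (Ctx B D)} {w : List B} (hB : Bsp P) (hw : w ∈ ZZ x D P)
    (hn : 2 * K + Λ ≤ w.length) (hU : ¬ InU Q D w) :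
    ∃ (P' : Finset (Ctx A D)) (z : List A), Bsp P' ∧ gg y x c K P' = P ∧ z ∈ ZZ y D P' ∧
      w = lw y x c K P' ++ z.flatMap φ ++ rw' y x c K P' := by
  classical
  have hK := h.K0
  have hΛ := h.two_le
  have hw' : ∀ κ ∈ P, ∃ i, wd x i w.length = w ∧ ctx x D i (i + w.length) = κ := hw
  choose! I hI using hw'
  set n := w.length with hn'
  obtain ⟨⟨κ1, hκ1, κ2, hκ2, hD0, hne⟩, ⟨ρ1, hρ1, ρ2, hρ2, hD1, hne'⟩⟩ := hB
  have hag : ∀ κ ∈ P, ∀ κ' ∈ P, Agr x (I κ) (I κ') 0 n := by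
    intro κ hκ κ' hκ'
    apply wd_eq_agr.1
    rw [(hI κ hκ).1, (hI κ' hκ').1]
  have hnp : ∀ κ ∈ P, ¬ ∃ q, 1 ≤ q ∧ q ≤ Q0 ∧ Per x q (I κ + K) (I κ + n - K) := by
    rintro κ hκ ⟨q, h1, h2, h3⟩
    apply hU
    rw [← (hI κ hκ).1, inU_wd]
    exact ⟨q, h1, by omega, h3.mono (by omega) (by omega)⟩
  have hL : ∀ κ ∈ P, κ.1 = lc x D (I κ) := fun κ hκ => by
    have := (hI κ hκ).2
    rw [ctx_eq] at this
    exact (congrArg Prod.fst this).symm
  have hR : ∀ κ ∈ P, κ.2 = rc x D (I κ + n) := fun κ hκ => by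
    have := (hI κ hκ).2
    rw [ctx_eq] at this
    exact (congrArg Prod.snd this).symm
  have hxl : x (I κ1 - 1) ≠ x (I κ2 - 1) := by
    rw [hL κ1 hκ1, hL κ2 hκ2] at hne
    simpa [lc] using hne
  have hxr : x (I ρ1 + n) ≠ x (I ρ2 + n) := by
    rw [hR ρ1 hρ1, hR ρ2 hρ2] at hne'
    simpa [rc] using hne'
  obtain ⟨p0, hp1, hp2⟩ := h.exists_cut (I κ1 + K)
  have hp3 : c p0 ≤ c (p0 - 1) + Λ := by
    have := h.hi (p0 - 1); rwa [show p0 - 1 + 1 = p0 by ring] at this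
  have hp : ∀ κ ∈ P, ∃ p, c p - I κ = c p0 - I κ1 ∧ y p0 = y p ∧ y (p0 - 1) = y (p - 1) := by
    intro κ hκ
    exact matchAll h (hag κ1 hκ1 κ hκ) (hnp κ1 hκ1) hp1 (by omega)
  choose! p hp using hp
  have hpc : ∀ κ ∈ P, c (p κ) = I κ + (c p0 - I κ1) := fun κ hκ => by
    have := (hp κ hκ).1; omega
  -- left
  have agL : ∀ m : ℕ, (∀ s : ℕ, s < m → ∀ κ ∈ P, y (p κ - 1 - s) = y (p0 - 1 - s)) →
      ∀ κ ∈ P, Agr y p0 (p κ) (-m) 0 := by
    intro m hm κ hκ t h1 h2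
    have := hm (-1 - t).toNat (by omega) κ hκ
    rw [show ((-1 - t).toNat : ℤ) = -1 - t by omega] at this
    rw [show p κ - 1 - (-1 - t) = p κ + t by ring, show p0 - 1 - (-1 - t) = p0 + t by ring] at this
    exact this.symm
  have crossL : ∀ m : ℕ, (∀ s : ℕ, s < m → ∀ κ ∈ P, y (p κ - 1 - s) = y (p0 - 1 - s)) →
      c (p0 - m) ≤ I κ1 - 1 → False := by
    intro m hm hc
    apply hxl
    have a1 := (h.agr (p := p0) (q := p κ1) (a := -m) (b := 0) (by omega) le_rfl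
      (agL m hm κ1 hκ1)).2
    have a2 := (h.agr (p := p0) (q := p κ2) (a := -m) (b := 0) (by omega) le_rfl
      (agL m hm κ2 hκ2)).2
    rw [show p0 + -(m : ℤ) = p0 - m by ring, show p0 + (0 : ℤ) = p0 by ring] at a1 a2
    have b1 := a1 (I κ1 - 1 - c p0) (by omega) (by omega)
    have b2 := a2 (I κ1 - 1 - c p0) (by omega) (by omega)
    rw [hpc κ1 hκ1] at b1
    rw [hpc κ2 hκ2] at b2
    rw [show I κ1 + (c p0 - I κ1) + (I κ1 - 1 - c p0) = I κ1 - 1 by ring] at b1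
    rw [show I κ2 + (c p0 - I κ1) + (I κ1 - 1 - c p0) = I κ2 - 1 by ring] at b2
    rw [← b1, ← b2]
  have hNL : ∃ s : ℕ, ∃ κ ∈ P, y (p κ - 1 - s) ≠ y (p0 - 1 - s) := by
    by_contra hc
    push Not at hc
    refine crossL (K + Λ + 1).toNat (fun s _ κ hκ => hc s κ hκ) ?_
    have := h.add_le (show p0 - ((K + Λ + 1).toNat : ℤ) ≤ p0 by omega)
    have e : ((K + Λ + 1).toNat : ℤ) = K + Λ + 1 := by omega
    rw [e] at this ⊢
    omega
  obtain ⟨κu, hκu, hu⟩ := Nat.find_spec hNL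
  have hu' : ∀ s : ℕ, s < Nat.find hNL → ∀ κ ∈ P, y (p κ - 1 - s) = y (p0 - 1 - s) := by
    intro s hs κ hκ
    have := Nat.find_min hNL hs
    push Not at this
    exact this κ hκ
  generalize Nat.find hNL = u at hu hu'
  have hα0 : I κ1 ≤ c (p0 - u) := by
    by_contra hc
    exact crossL u hu' (by omega)
  have hcu : ∀ κ ∈ P, c (p κ - u) - I κ = c (p0 - u) - I κ1 := by
    intro κ hκ
    have a1 := (h.agr (p := p0) (q := p κ) (a := -u) (b := 0) (by omega) le_rfl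
      (agL u hu' κ hκ)).1 (-u) le_rfl (by omega)
    rw [show p0 + -(u : ℤ) = p0 - u by ring, show p κ + -(u : ℤ) = p κ - u by ring] at a1
    have := hpc κ hκ
    omega
  have hcu_le : c (p0 - u) ≤ c p0 := h.mono (by omega)
  have hαK : c (p0 - u) - I κ1 < K := by
    by_contra hc
    apply hu
    have := h.DL (p κu - u) (p0 - u) ((hag κu hκu κ1 hκ1).shift'
      (by have := hcu κu hκu; omega) (by have := hcu κu hκu; omega)
      (by have := hcu κu hκu; omega))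
    rw [show p κu - 1 - (u : ℤ) = p κu - u - 1 by ring, show p0 - 1 - (u : ℤ) = p0 - u - 1 by ring]
    exact this
  -- right
  have agR : ∀ m : ℕ, (∀ s : ℕ, s < m → ∀ κ ∈ P, y (p κ + s) = y (p0 + s)) →
      ∀ κ ∈ P, Agr y p0 (p κ) 0 m := by
    intro m hm κ hκ t h1 h2
    have := hm t.toNat (by omega) κ hκ
    rw [show (t.toNat : ℤ) = t by omega] at this
    exact this.symm
  have crossR : ∀ m : ℕ, (∀ s : ℕ, s < m → ∀ κ ∈ P, y (p κ + s) = y (p0 + s)) →
      I κ1 + n + 1 ≤ c (p0 + m) → False := by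
    intro m hm hc
    apply hxr
    have a1 := (h.agr (p := p0) (q := p ρ1) (a := 0) (b := m) le_rfl (by omega)
      (agR m hm ρ1 hρ1)).2
    have a2 := (h.agr (p := p0) (q := p ρ2) (a := 0) (b := m) le_rfl (by omega)
      (agR m hm ρ2 hρ2)).2
    rw [show p0 + (0 : ℤ) = p0 by ring] at a1 a2
    have b1 := a1 (I κ1 + n - c p0) (by omega) (by omega)
    have b2 := a2 (I κ1 + n - c p0) (by omega) (by omega)
    rw [hpc ρ1 hρ1] at b1
    rw [hpc ρ2 hρ2] at b2
    rw [show I ρ1 + (c p0 - I κ1) + (I κ1 + n - c p0) = I ρ1 + n by ring] at b1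
    rw [show I ρ2 + (c p0 - I κ1) + (I κ1 + n - c p0) = I ρ2 + n by ring] at b2
    rw [← b1, ← b2]
  have hNR : ∃ s : ℕ, ∃ κ ∈ P, y (p κ + s) ≠ y (p0 + s) := by
    by_contra hc
    push Not at hc
    refine crossR (n + 1) (fun s _ κ hκ => hc s κ hκ) ?_
    have := h.add_le (show p0 ≤ p0 + ((n + 1 : ℕ) : ℤ) by omega)
    omega
  obtain ⟨κv, hκv, hv⟩ := Nat.find_spec hNR
  have hv' : ∀ s : ℕ, s < Nat.find hNR → ∀ κ ∈ P, y (p κ + s) = y (p0 + s) := by
    intro s hs κ hκ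
    have := Nat.find_min hNR hs
    push Not at this
    exact this κ hκ
  generalize Nat.find hNR = v at hv hv'
  have hβ0 : c (p0 + v) ≤ I κ1 + n := by
    by_contra hc
    exact crossR v hv' (by omega)
  have hcv : ∀ κ ∈ P, c (p κ + v) - I κ = c (p0 + v) - I κ1 := by
    intro κ hκ
    have a1 := (h.agr (p := p0) (q := p κ) (a := 0) (b := v) le_rfl (by omega)
      (agR v hv' κ hκ)).1 v (by omega) le_rfl
    have := hpc κ hκ
    omega
  have hcv_le : c p0 ≤ c (p0 + v) := h.mono (by omega)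
  have hβK : I κ1 + n - c (p0 + v) < K := by
    by_contra hc
    apply hv
    exact h.DR (p κv + v) (p0 + v) ((hag κv hκv κ1 hκ1).shift'
      (by have := hcv κv hκv; omega) (by have := hcv κv hκv; omega)
      (by have := hcv κv hκv; omega))
  -- the parent word
  set z := wd y (p0 - u) (u + v) with hz
  have hzl : z.length = u + v := by simp [hz]
  have hzκ : ∀ κ ∈ P, wd y (p κ - u) (u + v) = z := by
    intro κ hκ
    rw [hz, wd_eq_iff]
    intro t ht
    by_cases htu : t < u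
    · have := hu' (u - 1 - t) (by omega) κ hκ
      rw [show ((u - 1 - t : ℕ) : ℤ) = u - 1 - t by omega] at this
      rw [show p κ - 1 - ((u : ℤ) - 1 - t) = p κ - u + t by ring,
        show p0 - 1 - ((u : ℤ) - 1 - t) = p0 - u + t by ring] at this
      exact this
    · have := hv' (t - u) (by omega) κ hκ
      rw [show ((t - u : ℕ) : ℤ) = t - u by omega] at this
      rw [show p κ + ((t : ℤ) - u) = p κ - u + t by ring,
        show p0 + ((t : ℤ) - u) = p0 - u + t by ring] at this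
      exact this
  set P' : Finset (Ctx A D) := P.image (fun κ => ctx y D (p κ - u) (p κ + v)) with hP'
  have memL : ∀ i, (∃ κ ∈ P', lc y D i = κ.1) → ∃ κ ∈ P, lc y D i = lc y D (p κ - u) := by
    rintro i ⟨κ', hκ', e⟩
    obtain ⟨κ, hκ, rfl⟩ := Finset.mem_image.1 hκ'
    exact ⟨κ, hκ, e⟩
  have memR : ∀ i, (∃ κ ∈ P', rc y D i = κ.2) → ∃ κ ∈ P, rc y D i = rc y D (p κ + v) := by
    rintro i ⟨κ', hκ', e⟩
    obtain ⟨κ, hκ, rfl⟩ := Finset.mem_image.1 hκ'
    exact ⟨κ, hκ, e⟩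
  have memL' : ∀ κ ∈ P, ∃ κ' ∈ P', lc y D (p κ - u) = κ'.1 := fun κ hκ =>
    ⟨_, Finset.mem_image_of_mem _ hκ, rfl⟩
  have memR' : ∀ κ ∈ P, ∃ κ' ∈ P', rc y D (p κ + v) = κ'.2 := fun κ hκ =>
    ⟨_, Finset.mem_image_of_mem _ hκ, rfl⟩
  have hal : al y x c K P' = (c (p0 - u) - I κ1).toNat := by
    apply al_eq
    · omega
    · intro i i' hi hi'
      obtain ⟨κ, hκ, e⟩ := memL i hi
      obtain ⟨κ', hκ', e'⟩ := memL i' hi'
      have a1 := (h.toCut.lcx e).mono (a' := -((c (p0 - u) - I κ1).toNat : ℤ)) (b' := 0)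
        (by omega) le_rfl
      have a2 := (h.toCut.lcx e').mono (a' := -((c (p0 - u) - I κ1).toNat : ℤ)) (b' := 0)
        (by omega) le_rfl
      have a3 : Agr x (c (p κ - u)) (c (p κ' - u)) (-((c (p0 - u) - I κ1).toNat : ℤ)) 0 :=
        (hag κ hκ κ' hκ').shift' (by have := hcu κ hκ; have := hcu κ' hκ'; omega)
          (by have := hcu κ hκ; omega) (by have := hcu κ hκ; omega)
      exact (a1.trans a3).trans a2.symm
    · intro hc
      apply hxl
      have := hc (p κ1 - u) (p κ2 - u) (memL' κ1 hκ1) (memL' κ2 hκ2)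
        (-(c (p0 - u) - I κ1) - 1) (by push_cast; omega) (by omega)
      have e1 := hcu κ1 hκ1
      have e2 := hcu κ2 hκ2
      rw [show c (p κ1 - ↑u) + (-(c (p0 - ↑u) - I κ1) - 1) = I κ1 - 1 by omega,
        show c (p κ2 - ↑u) + (-(c (p0 - ↑u) - I κ1) - 1) = I κ2 - 1 by omega] at this
      exact this
  have hbr : br y x c K P' = (I κ1 + n - c (p0 + v)).toNat := by
    apply br_eq
    · omega
    · intro i i' hi hi'
      obtain ⟨κ, hκ, e⟩ := memR i hi
      obtain ⟨κ', hκ', e'⟩ := memR i' hi'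
      have a1 := (h.toCut.rcx e).mono (a' := 0) (b' := ((I κ1 + n - c (p0 + v)).toNat : ℤ))
        le_rfl (by omega)
      have a2 := (h.toCut.rcx e').mono (a' := 0) (b' := ((I κ1 + n - c (p0 + v)).toNat : ℤ))
        le_rfl (by omega)
      have a3 : Agr x (c (p κ + v)) (c (p κ' + v)) 0 ((I κ1 + n - c (p0 + v)).toNat : ℤ) :=
        (hag κ hκ κ' hκ').shift' (by have := hcv κ hκ; have := hcv κ' hκ'; omega)
          (by have := hcv κ hκ; omega) (by have := hcv κ hκ; omega)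
      exact (a1.trans a3).trans a2.symm
    · intro hc
      apply hxr
      have := hc (p ρ1 + v) (p ρ2 + v) (memR' ρ1 hρ1) (memR' ρ2 hρ2)
        (I κ1 + n - c (p0 + v)) (by omega) (by push_cast; omega)
      have e1 := hcv ρ1 hρ1
      have e2 := hcv ρ2 hρ2
      rw [show c (p ρ1 + ↑v) + (I κ1 + n - c (p0 + v)) = I ρ1 + n by omega,
        show c (p ρ2 + ↑v) + (I κ1 + n - c (p0 + v)) = I ρ2 + n by omega] at this
      exact this
  have hp0 : p κ1 = p0 := h.inj (by have := hpc κ1 hκ1; omega)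
  refine ⟨P', z, ⟨?_, ?_⟩, ?_, ?_, ?_⟩
  · refine ⟨_, Finset.mem_image_of_mem _ hκu, _, Finset.mem_image_of_mem _ hκ1, hD0, ?_⟩
    simp only [ctx, Nat.cast_zero, sub_zero]
    rw [hp0, show p κu - (u : ℤ) - 1 = p κu - 1 - u by ring,
      show p0 - (u : ℤ) - 1 = p0 - 1 - u by ring]
    exact hu
  · refine ⟨_, Finset.mem_image_of_mem _ hκv, _, Finset.mem_image_of_mem _ hκ1, hD0, ?_⟩
    simp only [ctx, Nat.cast_zero, add_zero]
    rw [hp0]
    exact hv
  · unfold gg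
    rw [hal, hbr, hP', Finset.image_image]
    have : ∀ κ ∈ P, ((fun κ : Ctx A D => (gl y x c D (c (p0 - u) - I κ1).toNat κ.1,
        gr y x c D (I κ1 + n - c (p0 + v)).toNat κ.2)) ∘ fun κ => ctx y D (p κ - u) (p κ + v)) κ
        = κ := by
      intro κ hκ
      simp only [Function.comp, ctx_eq]
      rw [gl_eq h.toCut (by omega), gr_eq h.toCut (by omega)]
      apply Prod.ext
      · simp only
        rw [hL κ hκ]
        congr 1
        have := hcu κ hκ
        omega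
      · simp only
        rw [hR κ hκ]
        congr 1
        have := hcv κ hκ
        omega
    rw [Finset.image_congr (g := fun κ => κ) (fun κ hκ => this κ hκ)]
    exact Finset.image_id
  · intro κ' hκ'
    obtain ⟨κ, hκ, rfl⟩ := Finset.mem_image.1 hκ'
    refine ⟨p κ - u, ?_, ?_⟩
    · rw [hzl]; exact hzκ κ hκ
    · rw [hzl]; congr 1; push_cast; ring
  · have hc : ctx y D (p0 - u) (p0 - u + z.length) ∈ P' := by
      rw [hP']
      refine Finset.mem_image.2 ⟨κ1, hκ1, ?_⟩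
      rw [hp0, hzl]; congr 1; push_cast; ring
    obtain ⟨e1, e2⟩ := posi (K := K) hs (i := p0 - u) (z := z) (by rw [hzl]) hc
    rw [← e1, hal, hbr]
    rw [hzl] at e2
    rw [show p0 - (u : ℤ) + ((u + v : ℕ) : ℤ) = p0 + v by push_cast; ring] at e2
    have e3 : (c (p0 - u) - I κ1).toNat + (z.flatMap φ).length + (I κ1 + n - c (p0 + v)).toNat = n := by
      omega
    rw [e3, show c (p0 - ↑u) - ((c (p0 - ↑u) - I κ1).toNat : ℤ) = I κ1 by omega]
    exact (hI κ1 hκ1).1.symm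

end

end Pool.Agent.W2helper68.DL
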