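import Mathlib

/-!
# Bi-infinite substitution structures: cuts, decoding, periods
-/

set_option autoImplicit false

namespace Pool.Agent.W2helper68.DL

/-- `x` has period `q` on `[a, b)`. -/
def Per {B : Type} (x : ℤ → B) (q a b : ℤ) : Prop := ∀ t, a ≤ t → t + q < b → x t = x (t + q)

/-- agreement of the windows `[i+a, i+b)` and `[j+a, j+b)`. -/
def Agr {B : Type} (x : ℤ → B) (i j a b : ℤ) : Prop := ∀ t, a ≤ t → t < b → x (i + t) = x (j + t)

theorem Agr.symm {B : Type} {x : ℤ → B} {i j a b : ℤ} (h : Agr x i j a b) : Agr x j i a b :=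
  fun t h1 h2 => (h t h1 h2).symm

theorem Agr.trans {B : Type} {x : ℤ → B} {i j k a b : ℤ} (h : Agr x i j a b) (h' : Agr x j k a b) :
    Agr x i k a b := fun t h1 h2 => (h t h1 h2).trans (h' t h1 h2)

theorem Agr.mono {B : Type} {x : ℤ → B} {i j a b a' b' : ℤ} (h : Agr x i j a b) (h1 : a ≤ a')
    (h2 : b' ≤ b) : Agr x i j a' b' := fun t h3 h4 => h t (by omega) (by omega)

theorem Agr.shift {B : Type} {x : ℤ → B} {i j a b : ℤ} (h : Agr x i j a b) (s : ℤ) :
    Agr x (i + s) (j + s) (a - s) (b - s) := fun t h1 h2 => by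
  have := h (t + s) (by omega) (by omega)
  rw [show i + s + t = i + (t + s) by ring, show j + s + t = j + (t + s) by ring]
  exact this

theorem Agr.shift' {B : Type} {x : ℤ → B} {i j a b i' j' a' b' : ℤ} (h : Agr x i j a b)
    (h1 : i' - i = j' - j) (h2 : a ≤ a' + (i' - i)) (h3 : b' + (i' - i) ≤ b) :
    Agr x i' j' a' b' := fun t h4 h5 => by
  have := h (t + (i' - i)) (by omega) (by omega)
  rw [show i' + t = i + (t + (i' - i)) by ring, show j' + t = j + (t + (i' - i)) by omega]
  exact this

theorem Per.mono {B : Type} {x : ℤ → B} {q a b a' b' : ℤ} (h : Per x q a b) (h1 : a ≤ a')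
    (h2 : b' ≤ b) : Per x q a' b' := fun t h3 h4 => h t (by omega) (by omega)

/-- multiples of periods -/
theorem Per.mul {B : Type} {x : ℤ → B} {q a b : ℤ} (h : Per x q a b) (hq : 0 ≤ q) (k : ℕ) :
    Per x (k * q) a b := by
  intro t h1 h2
  induction k with
  | zero => simp
  | succ k ih =>
    have hk : (0 : ℤ) ≤ k * q := by positivity
    have e : ((k + 1 : ℕ) : ℤ) * q = k * q + q := by push_cast; ring
    rw [e] at h2 ⊢
    rw [ih (by omega), h (t + k * q) (by omega) (by omega)]
    congr 1
    ring

/-- transfer of a period `q` from `[a, b)` to a bigger window with another period `q'` (left). -/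
theorem Per.transfer {B : Type} {x : ℤ → B} {q q' a b a' b' : ℤ} (hq : 1 ≤ q) (hq' : 1 ≤ q')
    (h : Per x q a b) (h' : Per x q' a' b')
    (ho1 : max a a' + q + q' ≤ min b b') : Per x q (min a a') (max b b') := by
  have ha : a ≤ max a a' := le_max_left _ _
  have ha' : a' ≤ max a a' := le_max_right _ _
  have hb : min b b' ≤ b := min_le_left _ _
  have hb' : min b b' ≤ b' := min_le_right _ _
  -- first: period q on [min a a', b)
  have key1 : ∀ n : ℕ, ∀ t, max a a' - n ≤ t → a' ≤ t → t + q < b' → t + q < max a a' + q + q' →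
      x t = x (t + q) := by
    intro n
    induction n with
    | zero =>
      intro t h1 h2 h3 h4
      have : a ≤ t := by simp at h1; omega
      exact h t this (by omega)
    | succ n ih =>
      intro t h1 h2 h3 h4
      by_cases hc : max a a' ≤ t
      · exact h t (by omega) (by omega)
      · push Not at hc
        -- t < max; so t + q' ≥ t + 1 > ...
        have e1 : x t = x (t + q') := h' t h2 (by omega)
        have e2 : x (t + q) = x (t + q + q') := h' (t + q) (by omega) (by omega)
        have e3 : x (t + q') = x (t + q' + q) := by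
          by_cases hd : max a a' ≤ t + q'
          · exact h _ (by omega) (by omega)
          · exact ih _ (by push_cast at h1; omega) (by omega) (by omega) (by omega)
        rw [e1, e3, e2]
        congr 1; ring
  have key2 : ∀ n : ℕ, ∀ t, t + q < min b b' + n → t + q < b' → a' ≤ t → max a a' ≤ t →
      x t = x (t + q) := by
    intro n
    induction n with
    | zero =>
      intro t h1 h2 h3 h4
      exact h t (by omega) (by simp at h1; omega)
    | succ n ih =>
      intro t h1 h2 h3 h4
      by_cases hc : t + q < min b b'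
      · exact h t (by omega) (by omega)
      · push Not at hc
        have e1 : x (t - q') = x t := by
          have := h' (t - q') (by omega) (by omega)
          rwa [show t - q' + q' = t by ring] at this
        have e2 : x (t + q - q') = x (t + q) := by
          have := h' (t + q - q') (by omega) (by omega)
          rwa [show t + q - q' + q' = t + q by ring] at this
        have e3 : x (t - q') = x (t - q' + q) := by
          exact ih _ (by push_cast at h1; omega) (by omega) (by omega) (by omega)
        rw [← e1, e3, ← e2]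
        congr 1; ring
  intro t h1 h2
  by_cases hc : max a a' ≤ t
  · by_cases hd : t + q < b
    · exact h t (by omega) hd
    · exact key2 (t + q + 1 - min b b').toNat t (by omega) (by omega) (by omega) hc
  · by_cases he : a ≤ t
    · by_cases hd : t + q < b
      · exact h t he hd
      · omega
    · exact key1 (max a a' - t).toNat t (by omega) (by omega) (by omega) (by omega)

/-- Basic substitution structure: `x` is cut into blocks `[c p, c (p+1))` of lengths in `[2, Λ]`
which depend only on `y p`. -/
structure Cut {A B : Type} (y : ℤ → A) (x : ℤ → B) (c : ℤ → ℤ) (Λ : ℤ) : Prop where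
  lo : ∀ p, c p + 2 ≤ c (p + 1)
  hi : ∀ p, c (p + 1) ≤ c p + Λ
  det : ∀ p q, y p = y q → c (p + 1) - c p = c (q + 1) - c q ∧
    Agr x (c p) (c q) 0 (c (p + 1) - c p)

section Cut
variable {A B : Type} {y : ℤ → A} {x : ℤ → B} {c : ℤ → ℤ} {Λ : ℤ}

theorem Cut.two_le (h : Cut y x c Λ) : 2 ≤ Λ := by
  have := h.lo 0
  have := h.hi 0
  omega

theorem Cut.add_nat (h : Cut y x c Λ) (p : ℤ) (s : ℕ) : c p + 2 * s ≤ c (p + s) := by
  induction s with
  | zero => simp
  | succ s ih =>
    have := h.lo (p + s)
    push_cast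
    rw [show p + ((s : ℤ) + 1) = p + s + 1 by ring]
    linarith

theorem Cut.add_le (h : Cut y x c Λ) {p q : ℤ} (hpq : p ≤ q) : c p + 2 * (q - p) ≤ c q := by
  have := h.add_nat p (q - p).toNat
  have e : ((q - p).toNat : ℤ) = q - p := Int.toNat_of_nonneg (by omega)
  rw [e] at this
  rw [show p + (q - p) = q by ring] at this
  exact this

theorem Cut.add_nat_hi (h : Cut y x c Λ) (p : ℤ) (s : ℕ) : c (p + s) ≤ c p + Λ * s := by
  induction s with
  | zero => simp
  | succ s ih =>
    have := h.hi (p + s)
    push_cast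
    rw [show p + ((s : ℤ) + 1) = p + s + 1 by ring]
    linarith

theorem Cut.add_hi (h : Cut y x c Λ) {p q : ℤ} (hpq : p ≤ q) : c q ≤ c p + Λ * (q - p) := by
  have := h.add_nat_hi p (q - p).toNat
  have e : ((q - p).toNat : ℤ) = q - p := Int.toNat_of_nonneg (by omega)
  rw [e] at this
  rw [show p + (q - p) = q by ring] at this
  exact this

theorem Cut.mono (h : Cut y x c Λ) {p q : ℤ} (hpq : p ≤ q) : c p ≤ c q := by
  have := h.add_le hpq
  omega

theorem Cut.lt_iff (h : Cut y x c Λ) {p q : ℤ} : c p < c q ↔ p < q := by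
  constructor
  · intro h1
    by_contra h2
    have := h.mono (show q ≤ p by omega)
    omega
  · intro h1
    have := h.add_le (show p ≤ q by omega)
    omega

theorem Cut.le_iff (h : Cut y x c Λ) {p q : ℤ} : c p ≤ c q ↔ p ≤ q := by
  have := h.lt_iff (p := q) (q := p)
  constructor
  · intro h1; by_contra h2; have := this.2 (by omega); omega
  · intro h1; exact h.mono h1

theorem Cut.inj (h : Cut y x c Λ) {p q : ℤ} (e : c p = c q) : p = q := by
  have h1 := h.le_iff (p := p) (q := q)
  have h2 := h.le_iff (p := q) (q := p)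
  have := h1.1 (by omega)
  have := h2.1 (by omega)
  omega

/-- there is a cut in every window of length `Λ`: the first cut `≥ a`. -/
theorem Cut.exists_cut (h : Cut y x c Λ) (a : ℤ) : ∃ p, a ≤ c p ∧ c (p - 1) < a := by
  have hb : ∃ b : ℤ, ∀ z : ℤ, a ≤ c z → b ≤ z := by
    refine ⟨min 0 (a - c 0), fun z hz => ?_⟩
    by_contra hc
    have h1 : z ≤ 0 := by omega
    have := h.add_le h1
    omega
  have hi : ∃ z : ℤ, a ≤ c z := by
    refine ⟨max 0 (a - c 0), ?_⟩
    have := h.add_le (show (0 : ℤ) ≤ max 0 (a - c 0) by omega)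
    omega
  obtain ⟨p, hp1, hp2⟩ := Int.exists_least_of_bdd hb hi
  refine ⟨p, hp1, ?_⟩
  by_contra hc
  have := hp2 (p - 1) (by omega)
  omega

/-- the last cut `≤ a`. -/
theorem Cut.exists_cut' (h : Cut y x c Λ) (a : ℤ) : ∃ p, c p ≤ a ∧ a < c (p + 1) := by
  obtain ⟨p, h1, h2⟩ := h.exists_cut (a + 1)
  refine ⟨p - 1, by omega, ?_⟩
  rw [show p - 1 + 1 = p by ring]; omega

/-- agreement at level 1 gives agreement at level 0 (to the right). -/
theorem Cut.right (h : Cut y x c Λ) {p q : ℤ} (m : ℕ) (hy : ∀ s : ℕ, s < m → y (p + s) = y (q + s)) :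
    c (p + m) - c p = c (q + m) - c q ∧ Agr x (c p) (c q) 0 (c (p + m) - c p) := by
  induction m with
  | zero => simp [Agr]; intro t h1 h2; omega
  | succ m ih =>
    obtain ⟨h1, h2⟩ := ih (fun s hs => hy s (by omega))
    obtain ⟨h3, h4⟩ := h.det _ _ (hy m (by omega))
    have e1 : p + ((m + 1 : ℕ) : ℤ) = p + m + 1 := by push_cast; ring
    have e2 : q + ((m + 1 : ℕ) : ℤ) = q + m + 1 := by push_cast; ring
    rw [e1, e2]
    refine ⟨by omega, fun t ht1 ht2 => ?_⟩
    by_cases hc : t < c (p + m) - c p
    · exact h2 t ht1 hc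
    · have := h4 (t - (c (p + m) - c p)) (by omega) (by omega)
      rw [show c (p + ↑m) + (t - (c (p + ↑m) - c p)) = c p + t by ring,
        show c (q + ↑m) + (t - (c (p + ↑m) - c p)) = c q + t by omega] at this
      exact this

/-- agreement at level 1 on `[a, b)` around `p, q`. -/
theorem Cut.agr (h : Cut y x c Λ) {p q a b : ℤ} (hab : a ≤ 0) (hb : 0 ≤ b)
    (hy : Agr y p q a b) :
    (∀ s, a ≤ s → s ≤ b → c (p + s) - c p = c (q + s) - c q) ∧
      Agr x (c p) (c q) (c (p + a) - c p) (c (p + b) - c p) := by
  have key : ∀ m : ℕ, (m : ℤ) ≤ b - a → c (p + a + m) - c (p + a) = c (q + a + m) - c (q + a) ∧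
      Agr x (c (p + a)) (c (q + a)) 0 (c (p + a + m) - c (p + a)) := by
    intro m hm
    refine h.right m (fun s hs => ?_)
    have := hy (a + s) (by omega) (by omega)
    rw [show p + a + s = p + (a + s) by ring, show q + a + s = q + (a + s) by ring]
    exact this
  have k0 := (key (-a).toNat (by omega)).1
  rw [show ((-a).toNat : ℤ) = -a from Int.toNat_of_nonneg (by omega)] at k0
  rw [show p + a + -a = p by ring, show q + a + -a = q by ring] at k0
  have k1 : ∀ s, a ≤ s → s ≤ b → c (p + s) - c p = c (q + s) - c q := by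
    intro s h1 h2
    have k2 := (key (s - a).toNat (by omega)).1
    rw [show ((s - a).toNat : ℤ) = s - a from Int.toNat_of_nonneg (by omega)] at k2
    rw [show p + a + (s - a) = p + s by ring, show q + a + (s - a) = q + s by ring] at k2
    omega
  refine ⟨k1, ?_⟩
  have k3 := (key (b - a).toNat (by omega)).2
  rw [show ((b - a).toNat : ℤ) = b - a from Int.toNat_of_nonneg (by omega)] at k3
  rw [show p + a + (b - a) = p + b by ring] at k3
  exact k3.shift' (by omega) (by omega) (by omega)

end Cut

end Pool.Agent.W2helper68.DL
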