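import Pool.Agent.W2helper68.DL.Words

/-!
# From elementary substitutions to `Dec`; growth of letters from JobG; analytic conclusion
-/

set_option autoImplicit false
open Filter

namespace Pool.Agent.W2helper68.DL

section cut
variable {A B : Type} [Fintype A] [Fintype B] [DecidableEq A] [DecidableEq B]

theorem isSub_cut {φ : A → List B} {y : ℤ → A} {x : ℤ → B} {c : ℤ → ℤ} (hs : IsSub φ y x c)
    (h2 : ∀ b, 2 ≤ (φ b).length) {Λ : ℤ} (hΛ : ∀ b, ((φ b).length : ℤ) ≤ Λ) : Cut y x c Λ where
  lo p := by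
    have := h2 (y p)
    rw [hs.step]; omega
  hi p := by
    have := hΛ (y p)
    rw [hs.step]; omega
  det p q hpq := by
    rw [hs.step, hs.step, hpq]
    refine ⟨by ring, fun t h1 h3 => ?_⟩
    have e1 := hs.val p t.toNat (by rw [hpq]; omega)
    have e2 := hs.val q t.toNat (by omega)
    rw [show (t.toNat : ℤ) = t by omega] at e1 e2
    rw [e1, e2]
    congr 1
    rw [hpq]

theorem isSub_dec (hD : JobD) {φ : A → List B} (hE : Elementary φ)
    (h2 : ∀ b, 2 ≤ (φ b).length) {y : ℤ → A} {x : ℤ → B} {c : ℤ → ℤ} (hs : IsSub φ y x c)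
    {Λ : ℤ} (hΛ : ∀ b, ((φ b).length : ℤ) ≤ Λ) : ∃ K, Dec y x c Λ K := by
  have hcut := isSub_cut hs h2 hΛ
  obtain ⟨K, hK⟩ := hD A B φ (fun a h => by have := h2 a; rw [h] at this; simp at this) hE Λ.toNat
  obtain ⟨h3, h4, h5⟩ := hK y x c hs
  refine ⟨K, { hcut with
    K0 := by omega
    DR := ?_
    DL := ?_
    OV := ?_ }⟩
  · intro p q hag
    exact h3 p q (fun t ht => hag t (by omega) (by omega))
  · intro p q hag
    refine h4 p q (fun t ht => ?_)
    have := hag (-1 - t) (by omega) (by omega)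
    rw [show c p - 1 - (t : ℤ) = c p + (-1 - t) by ring,
      show c q - 1 - (t : ℤ) = c q + (-1 - t) by ring]
    exact this
  · intro h hh1 hh2 p q p' q' a1 a2 a3
    refine h5 h.toNat (by omega) (by omega) p q p' q' ?_ ?_ ?_
    · intro t ht
      have := a1 t (by omega) (by omega)
      rwa [show (h.toNat : ℤ) = h by omega]
    · intro t ht
      have := a2 t (by omega) (by omega)
      rwa [show (h.toNat : ℤ) = h by omega]
    · intro t ht
      have := a3 t (by omega) (by omega)
      rwa [show (h.toNat : ℤ) = h by omega]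

end cut

section growth
variable {k : ℕ} (σ : Fin k → List (Fin k))

theorem iter_append (m : ℕ) (w w' : List (Fin k)) :
    (fun w : List (Fin k) => w.flatMap σ)^[m] (w ++ w') =
      (fun w : List (Fin k) => w.flatMap σ)^[m] w ++ (fun w : List (Fin k) => w.flatMap σ)^[m] w' := by
  induction m generalizing w w' with
  | zero => simp
  | succ m ih =>
    simp only [Function.iterate_succ, Function.comp]
    rw [List.flatMap_append, ih]

theorem iter_nil (m : ℕ) : (fun w : List (Fin k) => w.flatMap σ)^[m] [] = [] := by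
  induction m with
  | zero => simp
  | succ m ih => simp only [Function.iterate_succ, Function.comp]; simpa using ih

theorem iter_len (m : ℕ) (w : List (Fin k)) :
    ((fun w : List (Fin k) => w.flatMap σ)^[m] w).length = (w.map (fun b => slen σ b m)).sum := by
  induction w with
  | nil => rw [iter_nil]; simp
  | cons b w ih =>
    rw [show b :: w = [b] ++ w from rfl, iter_append, List.length_append, ih]
    simp [slen]

theorem slen_succ (b : Fin k) (m : ℕ) :
    slen σ b (m + 1) = ((σ b).map (fun c => slen σ c m)).sum := by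
  rw [← iter_len]
  unfold slen
  simp [Function.iterate_succ]

theorem len_eq_slen (t : ℕ) (b : Fin k) :
    len (fun b c => (σ b).count c) t b = slen σ b t := by
  induction t generalizing b with
  | zero => simp [len, slen]
  | succ t ih =>
    rw [slen_succ]
    simp only [len]
    rw [Finset.sum_list_map_count]
    simp only [smul_eq_mul, ih]
    symm
    apply Finset.sum_subset (Finset.subset_univ _)
    intro c _ hc
    rw [List.count_eq_zero_of_not_mem (by simpa using hc), zero_mul]

theorem slen_pow {b : Fin k} {m : ℕ} (hm : ∀ b, 2 ≤ slen σ b m) (t : ℕ) :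
    2 ^ t ≤ slen σ b (m * t) := by
  induction t generalizing b with
  | zero => simp [slen]
  | succ t ih =>
    have e : slen σ b (m * (t + 1)) =
        (((fun w : List (Fin k) => w.flatMap σ)^[m] [b]).map (fun c => slen σ c (m * t))).sum := by
      rw [← iter_len, ← Function.iterate_add_apply]
      unfold slen
      rw [show m * (t + 1) = m * t + m by ring]
    rw [e]
    have h1 : ∀ l : List (Fin k), l.length * 2 ^ t ≤ (l.map (fun c => slen σ c (m * t))).sum := by
      intro l
      induction l with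
      | nil => simp
      | cons c l ihl =>
        simp only [List.length_cons, List.map_cons, List.sum_cons]
        have := ih (b := c)
        nlinarith
    have h2 := h1 ((fun w : List (Fin k) => w.flatMap σ)^[m] [b])
    have h3 : 2 ≤ ((fun w : List (Fin k) => w.flatMap σ)^[m] [b]).length := hm b
    calc 2 ^ (t + 1) = 2 * 2 ^ t := by ring
      _ ≤ ((fun w : List (Fin k) => w.flatMap σ)^[m] [b]).length * 2 ^ t :=
          Nat.mul_le_mul_right _ h3
      _ ≤ _ := h2

theorem slen_grow (hG : JobG) (hgrow : ∀ b : Fin k, Tendsto (fun m : ℕ => slen σ b m) atTop atTop)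
    (b : Fin k) : ∃ (β : ℝ) (d : ℕ), 1 < β ∧ Grow (slen σ b) β d := by
  have hne : ∀ b, σ b ≠ [] := by
    intro b hb
    have := (hgrow b).eventually_ge_atTop 1
    obtain ⟨m, hm1, hm2⟩ := (this.and (eventually_ge_atTop 1)).exists
    obtain ⟨m, rfl⟩ := Nat.exists_eq_add_of_le' hm2
    rw [slen_succ, hb] at hm1
    simp at hm1
  obtain ⟨β, d, hβ, hgr⟩ := hG (Fin k) (fun b c => (σ b).count c) (fun b => by
    obtain ⟨c, hc⟩ := List.exists_mem_of_ne_nil _ (hne b)
    exact ⟨c, List.count_pos_iff.2 hc⟩) b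
  simp only [len_eq_slen] at hgr
  refine ⟨β, d, lt_of_le_of_ne hβ ?_, hgr⟩
  intro hβ1
  -- common m with all lengths ≥ 2
  have hm : ∃ m : ℕ, 1 ≤ m ∧ ∀ b, 2 ≤ slen σ b m := by
    have h1 : ∀ᶠ m in atTop, ∀ b, 2 ≤ slen σ b m :=
      eventually_all.2 (fun b => (hgrow b).eventually_ge_atTop 2)
    obtain ⟨m, h2, h3⟩ := (h1.and (eventually_ge_atTop 1)).exists
    exact ⟨m, h3, h2⟩
  obtain ⟨m, hm1, hm2⟩ := hm
  obtain ⟨lo, hi, hlo, hhi, hb⟩ := hgr
  -- 2^t ≤ hi * (m t)^d
  have hcontr : ∀ t : ℕ, 1 ≤ t → (2 : ℝ) ^ t ≤ hi * ((m : ℝ) ^ d * (t : ℝ) ^ d) := by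
    intro t ht
    have h1 := slen_pow σ (b := b) hm2 t
    have h2 := (hb (m * t) (by nlinarith)).2
    rw [← hβ1, one_pow, mul_one] at h2
    have h3 : ((2 ^ t : ℕ) : ℝ) ≤ (slen σ b (m * t) : ℝ) := by exact_mod_cast h1
    push_cast at h3 h2
    rw [mul_pow] at h2
    linarith
  have hlim : Tendsto (fun t : ℕ => (t : ℝ) ^ d / (2 : ℝ) ^ t) atTop (nhds 0) := by
    have := tendsto_pow_const_div_const_pow_of_one_lt d (r := (2 : ℝ)) (by norm_num)
    exact this
  have hc : 0 < 1 / (hi * (m : ℝ) ^ d) := by positivity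
  obtain ⟨t, ht1, ht2⟩ := ((hlim.eventually (gt_mem_nhds hc)).and (eventually_ge_atTop 1)).exists
  have h5 := hcontr t ht2
  have h6 : (0 : ℝ) < 2 ^ t := by positivity
  have hmp : (0 : ℝ) < (m : ℝ) ^ d := by positivity
  rw [div_lt_div_iff₀ h6 (by positivity)] at ht1
  nlinarith

end growth

section analytic

theorem GoodF.add_const {f : ℕ → ℝ} (h : GoodF f) (r : ℝ) : GoodF (fun n => f n + r) := by
  obtain ⟨C, C', K, hK⟩ := h
  refine ⟨C, C', K + |r|, fun n hn => ?_⟩
  have := hK n hn
  calc |f n + r - (C * Real.log n + C' * Real.log (Real.log n))|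
      = |(f n - (C * Real.log n + C' * Real.log (Real.log n))) + r| := by congr 1; ring
    _ ≤ _ := abs_add_le _ _
    _ ≤ _ := by linarith

theorem GoodF.congr {f g : ℕ → ℝ} (h : GoodF f) (he : ∀ n, f n = g n) : GoodF g := by
  have : f = g := funext he
  rwa [this] at h

theorem tendsto_log_nat : Tendsto (fun n : ℕ => Real.log (n : ℝ)) atTop atTop :=
  Real.tendsto_log_atTop.comp tendsto_natCast_atTop_atTop

theorem tendsto_loglog_nat : Tendsto (fun n : ℕ => Real.log (Real.log (n : ℝ))) atTop atTop :=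
  Real.tendsto_log_atTop.comp tendsto_log_nat

theorem loglog_littleo : (fun n : ℕ => Real.log (Real.log (n : ℝ))) =o[atTop]
    (fun n : ℕ => Real.log (n : ℝ)) := by
  have := Real.isLittleO_log_id_atTop.comp_tendsto tendsto_log_nat
  exact this

theorem goodF_concl {f : ℕ → ℝ} (h : GoodF f) (h0 : ∀ n, 0 ≤ f n) (hu : ∀ R : ℕ, ∃ n, (R : ℝ) ≤ f n) :
    ∃ C : ℝ, 0 < C ∧
      (Asymptotics.IsEquivalent atTop f (fun n : ℕ => C * Real.log (Real.log (n : ℝ))) ∨
       Asymptotics.IsEquivalent atTop f (fun n : ℕ => C * Real.log (n : ℝ))) := by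
  obtain ⟨C, C', K, hK⟩ := h
  have hK0 : 0 ≤ K := (abs_nonneg _).trans (hK 3 le_rfl)
  have hconst : ∀ g : ℕ → ℝ, Tendsto g atTop atTop → (fun _ : ℕ => K) =o[atTop] g := by
    intro g hg
    exact (Asymptotics.isLittleO_const_left.2 (Or.inr (tendsto_norm_atTop_atTop.comp hg)))
  have herr : (fun n : ℕ => f n - (C * Real.log n + C' * Real.log (Real.log n))) =O[atTop]
      (fun _ : ℕ => K) := by
    apply Asymptotics.IsBigO.of_bound 1
    filter_upwards [eventually_ge_atTop 3] with n hn
    rw [one_mul, Real.norm_eq_abs, Real.norm_eq_abs, abs_of_nonneg hK0]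
    exact hK n hn
  -- main asymptotics if C ≠ 0
  have eqC : C ≠ 0 → Asymptotics.IsEquivalent atTop f (fun n : ℕ => C * Real.log (n : ℝ)) := by
    intro hC
    unfold Asymptotics.IsEquivalent
    have h1 : (fun n : ℕ => f n - (C * Real.log n + C' * Real.log (Real.log n))) =o[atTop]
        (fun n : ℕ => C * Real.log (n : ℝ)) :=
      (herr.trans_isLittleO (hconst _ tendsto_log_nat)).trans_isBigO
        (Asymptotics.isBigO_self_const_mul hC _ _)
    have h2 : (fun n : ℕ => C' * Real.log (Real.log (n : ℝ))) =o[atTop]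
        (fun n : ℕ => C * Real.log (n : ℝ)) :=
      (loglog_littleo.const_mul_left C').trans_isBigO
        (Asymptotics.isBigO_self_const_mul hC _ _)
    refine (h1.add h2).congr_left (fun n => ?_)
    simp only [Pi.sub_apply]
    ring
  rcases lt_trichotomy C 0 with hC | hC | hC
  · exfalso
    have h1 := (eqC hC.ne)
    have h2 : Tendsto (fun n : ℕ => C * Real.log (n : ℝ)) atTop atBot :=
      tendsto_log_nat.const_mul_atTop_of_neg hC
    have h3 : Tendsto f atTop atBot := h1.symm.tendsto_atBot h2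
    obtain ⟨n, hn⟩ := (h3.eventually_lt_atBot 0).exists
    exact absurd (h0 n) (not_le.2 hn)
  · subst hC
    have eqC' : C' ≠ 0 → Asymptotics.IsEquivalent atTop f
        (fun n : ℕ => C' * Real.log (Real.log (n : ℝ))) := by
      intro hC'
      unfold Asymptotics.IsEquivalent
      have h1 : (fun n : ℕ => f n - (0 * Real.log n + C' * Real.log (Real.log n))) =o[atTop]
          (fun n : ℕ => C' * Real.log (Real.log (n : ℝ))) :=
        (herr.trans_isLittleO (hconst _ tendsto_loglog_nat)).trans_isBigO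
          (Asymptotics.isBigO_self_const_mul hC' _ _)
      refine h1.congr_left (fun n => ?_)
      simp only [Pi.sub_apply]
      ring
    rcases lt_trichotomy C' 0 with hC' | hC' | hC'
    · exfalso
      have h1 := (eqC' hC'.ne)
      have h2 : Tendsto (fun n : ℕ => C' * Real.log (Real.log (n : ℝ))) atTop atBot :=
        tendsto_loglog_nat.const_mul_atTop_of_neg hC'
      have h3 : Tendsto f atTop atBot := h1.symm.tendsto_atBot h2
      obtain ⟨n, hn⟩ := (h3.eventually_lt_atBot 0).exists
      exact absurd (h0 n) (not_le.2 hn)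
    · exfalso
      subst hC'
      obtain ⟨n, hn⟩ := hu (⌈K⌉₊ + ⌈f 0⌉₊ + ⌈f 1⌉₊ + ⌈f 2⌉₊ + 1)
      push_cast at hn
      have e1 := Nat.le_ceil K
      have e2 := Nat.le_ceil (f 0)
      have e3 := Nat.le_ceil (f 1)
      have e4 := Nat.le_ceil (f 2)
      have p1 := h0 0
      have p2 := h0 1
      have p3 := h0 2
      rcases lt_or_ge n 3 with hn3 | hn3
      · interval_cases n <;> linarith
      · have := hK n hn3
        rw [zero_mul, zero_mul, add_zero, sub_zero] at this
        have := le_abs_self (f n)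
        linarith
    · exact ⟨C', hC', Or.inl (eqC' hC'.ne')⟩
  · exact ⟨C, hC, Or.inr (eqC hC.ne')⟩

end analytic

end Pool.Agent.W2helper68.DL
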