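import Pool.Agent.W2helper68.DL.Sync
import Pool.Agent.W2helper68.DL.Stm

/-!
# Second list of pieces of the D0L first-difference project (MP_52de8b_co, frozen S08765)

Overview.  `u` is extended to `x : ℤ → Option (Fin k)` (`none` on the left).  `x = φ(y)`, `y = ψ(y)` with
`φ, ψ` elementary and all blocks of length `≥ 2` (JobE); elementarity gives `Syn` (decoding and
synchronization of all central cuts of two occurrences of a word which is not periodic up to margins;
`Sync.lean` + JobD).  `s_x(n) = Σ_{|w|<n} m(w)`; words periodic up to margins are treated by JobC and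
JobT, the others by families `z ↦ ℓ ψ(z) r` (JobA).
-/

set_option autoImplicit false
open Filter

namespace Pool.Agent.W2helper68.DL

section defs
variable {A : Type}

/-- the word `x_i ... x_{i+n-1}` -/
def wd (x : ℤ → A) (i : ℤ) (n : ℕ) : List A := List.ofFn (fun t : Fin n => x (i + (t : ℕ)))

/-- language of a bi-infinite word -/
def Lang (x : ℤ → A) : Set (List A) := {w | ∃ i, wd x i w.length = w}

/-- `w` has a period `≤ Q` after cutting off margins of length `D`. -/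
def InU (Q D : ℕ) (w : List A) : Prop :=
  ∃ q, 1 ≤ q ∧ q ≤ Q ∧ ∀ t, D ≤ t → t + q + D < w.length → w[t]? = w[t + q]?

/-- pairs of left (read backwards) and right contexts of depth `D` -/
abbrev Ctx (A : Type) (D : ℕ) := (Fin D → A) × (Fin D → A)

def ctx (x : ℤ → A) (D : ℕ) (i j : ℤ) : Ctx A D :=
  (fun s => x (i - 1 - (s : ℕ)), fun s => x (j + (s : ℕ)))

/-- words having (at least) all contexts in `P` -/
def ZZ (x : ℤ → A) (D : ℕ) (P : Finset (Ctx A D)) : Set (List A) :=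
  {w | ∀ κ ∈ P, ∃ i, wd x i w.length = w ∧ ctx x D i (i + w.length) = κ}

/-- bispecial set of contexts -/
def Bsp {D : ℕ} (P : Finset (Ctx A D)) : Prop :=
  (∃ κ ∈ P, ∃ κ' ∈ P, ∃ h : 0 < D, κ.1 ⟨0, h⟩ ≠ κ'.1 ⟨0, h⟩) ∧
  (∃ κ ∈ P, ∃ κ' ∈ P, ∃ h : 0 < D, κ.2 ⟨0, h⟩ ≠ κ'.2 ⟨0, h⟩)

/-- bilateral multiplicity -/
noncomputable def mm (x : ℤ → A) (w : List A) : ℤ :=
  (({p : A × A | p.1 :: (w ++ [p.2]) ∈ Lang x}.ncard : ℕ) : ℤ)
    - (({a : A | a :: w ∈ Lang x}.ncard : ℕ) : ℤ)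
    - (({b : A | w ++ [b] ∈ Lang x}.ncard : ℕ) : ℤ) + 1

open Classical in
/-- words of length `n` of the language -/
noncomputable def LF [Fintype A] (x : ℤ → A) (n : ℕ) : Finset (List A) :=
  (Finset.univ.image (fun f : Fin n → A => List.ofFn f)).filter (· ∈ Lang x)

/-- words `w` outside `U` such that both `tail` and `dropLast` are outside `U` but the inner word
is in `U`. -/
def Tri (x : ℤ → A) (U : Set (List A)) : Set (List A) :=
  {w | w ∈ Lang x ∧ w ∉ U ∧ w.tail ∉ U ∧ w.dropLast ∉ U ∧ w.tail.dropLast ∈ U}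

/-- functions of the form `C log n + C' log log n + O(1)` -/
def GoodF (f : ℕ → ℝ) : Prop := ∃ C C' K : ℝ, ∀ n : ℕ, 3 ≤ n →
  |f n - (C * Real.log n + C' * Real.log (Real.log n))| ≤ K

end defs

/-- **Job A** (abstract counting).  Types `T` with a map `g`, sets `S τ` of words, and maps
`z ↦ ℓ_τ ψ(z) r_τ` from `S τ` to `S (g τ)` hitting all long words; then the counting functions of
`S τ` are good.

Paper proof.  Let `G (τ, z) = (g τ, ℓ_τ ψ(z) r_τ)`.  Choose `N ≥ 1` with `e := g^[N]` idempotent.  If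
`e τ ≠ τ` then `S τ` has no long words (a word of length `≥ L_N` of `S τ` has an `N`-fold ancestor in some
`S τ'`, so `τ = e τ'` and `e τ = τ`), so the count is bounded.  If `e τ = τ` put
`Θ(z) = (G^[N] (τ, z)).2`, an injective map `S τ → S τ` with `|Θ z| ≥ 2 |z|`; every long `w ∈ S τ` is in
the image: take a `2N`-fold ancestor `z₂ ∈ S τ'`, `e (e τ') = τ`, so `e τ' = τ`, and `z₁ = (G^[N] (τ', z₂)).2 ∈ S τ`
has `Θ z₁ = w`.  So `S τ` is the disjoint union of the orbits `{Θ^t z₀ : t ≥ 0}` of the finitely many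
`z₀ ∈ S τ \ Θ(S τ)`.  Lengths: with `τ_j = g^[j] τ` (periodic, period `N`),
`|φ(Θ^t z₀)| = |φψ^{Nt}(z₀)| + Σ_{j < Nt} |φψ^{Nt-1-j}(ℓ_{τ_j} r_{τ_j})|`, and
`|φψ^s(b)| = Θ(len s b) = Θ(s^{d_b} β_b^s)` by JobG (with `β_b > 1` since all `|ψ b| ≥ 2`); sums
`Σ_{i<s} i^d β^i = Θ(s^d β^s)`; so `t ↦ |φ(Θ^t z₀)| + κ` is strictly increasing and of type `Grow β d`
(lexicographic maximum over the letters involved); apply JobN to every orbit and add up. -/
def JobA : Prop := ∀ (A B T : Type) [Fintype A] [Fintype B] [DecidableEq B] [Finite T]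
  (ψ : B → List B) (φ : B → List A) (g : T → T) (S : T → Set (List B)) (l r : T → List B),
  (∀ b, 2 ≤ (ψ b).length) → (∀ b, φ b ≠ []) →
  (∀ τ, ∀ z ∈ S τ, l τ ++ z.flatMap ψ ++ r τ ∈ S (g τ)) →
  (∃ L : ℕ, ∀ τ, ∀ w ∈ S τ, L ≤ w.length →
    ∃ τ' z, g τ' = τ ∧ z ∈ S τ' ∧ w = l τ' ++ z.flatMap ψ ++ r τ') →
  (∀ τ, ∀ z ∈ S τ, ∀ z' ∈ S τ, z.flatMap ψ = z'.flatMap ψ → z = z') →
  (∀ τ, [] ∉ S τ) →
  ∀ (τ : T) (κ : ℕ), GoodF (fun n => ({z | z ∈ S τ ∧ (z.flatMap φ).length + κ < n}.ncard : ℝ))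

/-- **Job C** (counting identity).  `U` closed under removing the first or last letter, boundedly many
words of `U` of each length in the language, finitely many words outside `U` with both `tail` and `dropLast`
in `U`.  Then `s_x(n) = Σ_{|w|<n, w ∉ U} m(w) + #{w ∈ Tri : |w| < n} + O(1)`.

Paper proof.  Let `p(n) = #LF x n`, `p_U(n) = #(LF x n ∩ U)`.  As `p(n+1) = Σ r(w) = Σ l(w)`,
`p(n+2) = Σ e(w)` (sums over `LF x n`) we get `p(n+2) - 2p(n+1) + p(n) = Σ_{w ∈ LF x n} m(w)`, and the same for `U`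
with `m_U = e_U - l_U - r_U + 1` (extensions inside `U`).  So
`Σ_{w ∈ LF x n ∩ U} m(w) = Δ²p_U(n) + c_{n+2} - a_{n+1} - b_{n+1}` where (words of the language outside `U`)
`a_n` = number with `tail ∈ U`, `b_n` = with `dropLast ∈ U`, `c_n` = with inner word in `U`, and
`c_n = a_n + b_n - TT_n + Tri_n`.  Sum over `n` and telescope; `a_n, b_n ≤ #A * bound`. -/
def JobC : Prop := ∀ (A : Type) [Fintype A] [DecidableEq A] (x : ℤ → A) (U : Set (List A)),
  (∀ w ∈ U, w.tail ∈ U ∧ w.dropLast ∈ U) →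
  (∃ b : ℕ, ∀ n : ℕ, {w | w ∈ Lang x ∧ w ∈ U ∧ w.length = n}.ncard ≤ b) →
  {w | w ∈ Lang x ∧ w ∉ U ∧ w.tail ∈ U ∧ w.dropLast ∈ U}.Finite →
  ∃ K : ℤ, ∀ n : ℕ, ∀ V : Finset (List A),
    (∀ w, w ∈ V ↔ w ∈ Lang x ∧ w ∉ U ∧ w.length < n) →
    |((LF x (n + 1)).card : ℤ) - ((LF x n).card : ℤ)
      - (∑ w ∈ V, mm x w + (({w | w ∈ Tri x U ∧ w.length < n}.ncard : ℕ) : ℤ))| ≤ K

/-- **Job C2**: the hypotheses of JobC hold for `U = {w | InU Q D w}`.
(Finiteness of the words with `tail, dropLast ∈ U`, `w ∉ U`: two periods on overlapping long windows, see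
`Per.transfer` in Basic.lean.) -/
def JobC2 : Prop := ∀ (A : Type) [Fintype A] [DecidableEq A] (x : ℤ → A) (Q D : ℕ), 1 ≤ Q →
  (∀ w ∈ {w : List A | InU Q D w}, w.tail ∈ {w : List A | InU Q D w} ∧
    w.dropLast ∈ {w : List A | InU Q D w}) ∧
  (∃ b : ℕ, ∀ n : ℕ, {w | w ∈ Lang x ∧ w ∈ {w : List A | InU Q D w} ∧ w.length = n}.ncard ≤ b) ∧
  {w | w ∈ Lang x ∧ w ∉ {w : List A | InU Q D w} ∧ w.tail ∈ {w : List A | InU Q D w} ∧
    w.dropLast ∈ {w : List A | InU Q D w}}.Finite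

/-- the bi-infinite extension of `u` by the marker `none` on the left -/
def ext {k : ℕ} (u : ℕ → Fin k) : ℤ → Option (Fin k) :=
  fun i => if i < 0 then none else some (u i.toNat)

/-- **Job E** (reduction to elementary morphisms).

Paper proof.  Extend `σ` to `σ̂` on `Option (Fin k)` by `none ↦ [none, none]`, `some b ↦ (σ b).map some`; then
`IsSub σ̂ x x c₁` for `x = ext u`, a suitable cut function with `c₁ 0 = 0` (from the hypothesis on `u`), so
`IsSub σ̂^m x x c_m`.  Let `m₀` be the least number such that some power `σ̂^m`, `m ≥ 1`, factors through an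
alphabet with at most `m₀` letters: `σ̂^m = μ ∘ α`, `α : _ → List C`, `μ : C → List _`, `#C = m₀`
(`μ, α` are nonerasing: if `μ c = []` the letter `c` could be dropped).  Let `y = α(x)` (concatenation of the
blocks `α (x p)`, block of `x 0` starting at `0`), so `IsSub α x y _`, `IsSub μ y x _` (as `μ(α(x)) = σ̂^m(x) = x`)
and `IsSub (α ∘ μ) y y _`.  Put `ψ₀ = α ∘ μ`.  `μ ψ₀^i α = σ̂^{m(i+1)}`, so `μ ψ₀^i` is elementary for all `i ≥ 0`
by minimality of `m₀`, and hence so is `ψ₀^i` (`i ≥ 1`).  As `|σ̂^s(b)| → ∞` for all `b` there is `i ≥ 1` such that all blocks of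
`φ = μ ψ₀^i` and of `ψ = ψ₀^i` have length `≥ 2`. -/
def JobE : Prop := ∀ (k : ℕ) (σ : Fin k → List (Fin k)) (a : Fin k) (u : ℕ → Fin k),
    (∀ b : Fin k, Tendsto (fun m : ℕ => slen σ b m) atTop atTop) →
    (σ a).head? = some a → 2 ≤ (σ a).length →
    (∀ m i : ℕ, i < slen σ a m →
      ((fun w : List (Fin k) => w.flatMap σ)^[m] [a])[i]? = some (u i)) →
    (∀ b : Fin k, ∃ i : ℕ, u i = b) →
    ∃ (C : Type) (_ : Fintype C) (_ : DecidableEq C) (φ : C → List (Option (Fin k)))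
      (ψ : C → List C) (y : ℤ → C) (c e : ℤ → ℤ),
      (∀ b, 2 ≤ (φ b).length) ∧ (∀ b, 2 ≤ (ψ b).length) ∧ Elementary φ ∧ Elementary ψ ∧
      IsSub φ y (ext u) c ∧ IsSub ψ y y e

/-- **Job E2**: `p_x(n) = p_u(n) + n` for the marked extension. -/
def JobE2 : Prop := ∀ (k : ℕ) (u : ℕ → Fin k) (n : ℕ),
  (LF (ext u) n).card = (Fac u n).ncard + n

/-- **Job R** (theory of long periodic stretches of `y = ψ(y)`).  R1: long stretches with period `≤ Q` have a
period `≤ Q0`.  R2 (left rigidity): the left contexts of the starts of long runs are determined by their last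
`c0` letters.

Paper proof.  (P) If `Per y q a b` with `b - a` large: among `q + 1` consecutive cuts in `[a + K, b - K]` two are
congruent mod `q`: `e r₂ - e r₁ = k q`, `r₁ < r₂ ≤ r₁ + q`; by `DR`, `DL` the level-1 word `y` has period `r₂ - r₁ ≤ q`
on all letters whose cuts are in `[a + K, b - K]` (the *parent stretch*; its length is `≥ (b-a)/Λ - const`).
If moreover the minimal period `q` of the stretch is `> Q0` then, comparing `i = a` and `j = a + q` with `SC`
(`Agr y a (a+q) 0 (b-a-q)`, and no period `≤ Q0`), all central cuts are mapped to cuts by `+q`, so one can take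
`k = 1` and `r₂ - r₁ ≤ q/2` since blocks have length `≥ 2`.
(Left-exact starts.)  `Start M a` : `∃ q ∈ [1,Q], Per y q a (a+M) ∧ y (a-1) ≠ y (a-1+q)`.  For a long start `a` the
parent stretch extends to the left to an exact start `p` with `a ≤ e p ≤ a + K + Λ` (if the level-1 period extended
further left, the image would be periodic across `a - 1`, contradiction by `Per.transfer`).  The data
`W_D(a) = y[a-D, a+2Q)` of the child is a function of the data `W_D(p)` of the parent if `D ≥ K + Λ` (image of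
`2Q` letters has `≥ 4Q` letters, of `D` letters `≥ 2D ≥ D + K + Λ` letters; `e p - a` is the place where the period
of `y` on `[e p, ..)` stops).
Let `𝒲_D` be the (finite) set of data occurring for starts with arbitrarily large `M`.  Every `W ∈ 𝒲_D` has a
parent `π W ∈ 𝒲_D` (pigeonhole); `π` is injective (child is a function of the parent), hence a bijection of `𝒲_D`.
The minimal period satisfies `per (π W) ≤ per W`, hence equality everywhere, hence `per W ≤ Q0` by (P).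
This gives R1 for stretches which are long and left-exact (`M` bigger than the maximal length for data not in
`𝒲_D`); by reversal (`Syn.rev`) also for right-exact ones; a stretch that is bi-infinitely extendable is treated
directly (its parent is the same bi-infinite periodic word, minimal period `q ≤ q/2` if `q > Q0`); the
left-infinite ones are right-exact.
R2: let `W₁ ≠ W₂ ∈ 𝒲_D` have the same last `2Q` letters (run word) and maximal agreement `g < D` to the left of the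
start.  Write `W_i = π V_i`, so `V_i` is the child datum of `W_i`, `V₁ ≠ V₂`, and `V₁, V₂` agree on
`≥ 2 g - (K + Λ)` letters to the left of the start (if `2g ≥ K + Λ + 1`) and have the same run word; if
`g > K + Λ` this is `> g`, contradiction.  So `c0 = K + Λ + 1` works. -/
def JobR : Prop := ∀ (A : Type) [Finite A] (y : ℤ → A) (e : ℤ → ℤ) (Λ K Q0 : ℤ),
  Syn y y e Λ K Q0 → ∀ Q : ℤ, Q0 ≤ Q →
    (∃ M0 : ℤ, ∀ q a b : ℤ, 1 ≤ q → q ≤ Q → M0 ≤ b - a → Per y q a b →
      ∃ q0, 1 ≤ q0 ∧ q0 ≤ Q0 ∧ Per y q0 a b) ∧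
    (∃ c0 : ℤ, 0 ≤ c0 ∧ ∀ D : ℤ, ∃ M1 : ℤ, ∀ q a1 a2 : ℤ, 1 ≤ q → q ≤ Q →
      Per y q a1 (a1 + M1) → y (a1 - 1) ≠ y (a1 - 1 + q) →
      Per y q a2 (a2 + M1) → y (a2 - 1) ≠ y (a2 - 1 + q) →
      Agr y a1 a2 (-c0) M1 → Agr y a1 a2 (-D) 0)

/-- **Job B2** (invariance of `U`), to be proved from the conclusion of JobR for `y` and (for the right
side) for `rv y`.  `Q ≥ Λ Q0`.
(E2) if the image (with margins `a', b' ≤ K`) is in `U` then so is the word: level-0 period `q ≤ Q` on the central part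
gives level-1 period `≤ q` ((P) above).
(E) if the word `y[p, p+n)` is long, in `U`, left special and right special then its image (with margins) is in `U`:
let `a` be the left end of the run inside the word (`a = p` or `p < a ≤ p + D` exact start).  If `a > p + c0` then
the other occurrence `p'` has the same run start `p' + (a - p)` and rigidity (R2 with `D + 1`) gives
`y (p-1) = y (p'-1)`, contradiction.  So the run covers `[p + c0, p + n - c0)`; by R1 it has a period `q0 ≤ Q0`, so the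
image of the run has the period `c (t + q0) - c t ≤ Λ Q0 ≤ Q`, and it covers `[c p - a' + D, c (p+n) + b' - D)` if
`D ≥ Λ c0 + K`. -/
def JobB2 : Prop := ∀ (A B : Type) [Finite A] [Finite B] (y : ℤ → A) (x : ℤ → B) (c e : ℤ → ℤ)
  (Λ K Q0 : ℤ), Syn y y e Λ K Q0 → Syn y x c Λ K Q0 → ∀ Q : ℤ, Λ * Q0 ≤ Q → JobR →
  ∃ D0 : ℤ, ∀ D : ℤ, D0 ≤ D → ∃ L0 : ℤ, ∀ p n a' b' : ℤ, 0 ≤ a' → a' ≤ K → 0 ≤ b' → b' ≤ K →
    L0 ≤ n →
    ((∃ q, 1 ≤ q ∧ q ≤ Q ∧ Per x q (c p - a' + D) (c (p + n) + b' - D)) →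
      ∃ q, 1 ≤ q ∧ q ≤ Q ∧ Per y q (p + D) (p + n - D)) ∧
    ((∃ q, 1 ≤ q ∧ q ≤ Q ∧ Per y q (p + D) (p + n - D)) →
      (∃ p', Agr y p p' 0 n ∧ y (p - 1) ≠ y (p' - 1)) →
      (∃ p', Agr y p p' 0 n ∧ y (p + n) ≠ y (p' + n)) →
      ∃ q, 1 ≤ q ∧ q ≤ Q ∧ Per x q (c p - a' + D) (c (p + n) + b' - D))

/-- **Job T** (exact runs).  The counting function of `Tri x U`, `U = {w | InU Q D w}`, is good.

Paper proof.  A *run* of `x` is `[a, b)` with `b - a ≥ M`, `1 ≤ q ≤ Q`, `Per x q a b`, `x (a-1) ≠ x (a-1+q)`,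
`x b ≠ x (b-q)`; same for `y` (there even `q ≤ Q0` by R1).
1. Long words of `Tri x U` are exactly the words `x[a-D-1, b+D+1)` for runs `[a, b)` (use `Per.transfer`).
2. Parents/children: for a long run `[a,b)` of `x` there is a unique run `[p,p')` of `y` with
`a ≤ c p ≤ a + K + Λ`, `b - K - Λ ≤ c p' ≤ b` ((P) of JobR and exactness); conversely for a long run `[p,p')` of `y`
(period `q0 ≤ Q0`) the image has period `c (p+q0) - c p ≤ Λ Q0 ≤ Q` and extends to a run `[a,b)` of `x` with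
`c p - K ≤ a ≤ c p`, `c p' ≤ b ≤ c p' + K` (`DL`, `DR`).  They are inverse to each other (two runs overlapping in
`≥ 2Q` letters coincide).  The same for `y → y` (via `ψ`).
3. Let `D1` be large compared with `D, K, Λ`; type of a run `[p,p')` of `y`:
`τ = (y[p-D1, p+2Q), y[p'-2Q, p'+D1)) ∈ T := (Fin (D1+2Q) → A)²`; `S τ = {z | z = y[p,p') for a run of type τ, p'-p ≥ M}`.
The child run (via `ψ`) has word `ℓ_τ ψ(z) r_τ` and type `g τ` with `ℓ_τ, r_τ, g τ` depending on `τ` only (put junk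
values for `τ` not realized).  Long words of `S τ` have parents.  `ψ` is injective on `S τ` (decode from the two common
end cuts).  So JobA applies: `n ↦ #{z ∈ S τ : |φ(z)| + κ < n}` is good.
4. The map (run of `y` of type `τ`, word `z`) ↦ word `w` of the child run in `x` with margins `D+1` is well defined on pairs
`(τ, z)`, `|w| = |φ(z)| + κ_τ`, hits all long words of `Tri x U`, and is injective on long ones: `w ∉ U`, so by `SC` all cuts
of two occurrences of `w` up to margins `K` coincide, so the two level-1 runs have the same word `z` and contexts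
agreeing on `≥ (D + 1 - 2K - Λ)/Λ ≥ c0` letters, hence on `D1` letters by R2 (and its mirror image).
So the count is `Σ_τ #{z ∈ S τ : |φ(z)| + κ_τ < n} + O(1)`. -/
def JobT : Prop := ∀ (A B : Type) [Fintype A] [Fintype B] [DecidableEq A] [DecidableEq B]
  (φ : A → List B) (ψ : A → List A) (y : ℤ → A) (x : ℤ → B) (c e : ℤ → ℤ)
  (Λ K Q0 : ℤ), IsSub φ y x c → IsSub ψ y y e → Syn y y e Λ K Q0 → Syn y x c Λ K Q0 →
  ∀ Q : ℕ, Λ * Q0 ≤ Q → JobR → JobA →
  ∃ D0 : ℕ, ∀ D : ℕ, D0 ≤ D →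
    GoodF (fun n => ({w | w ∈ Tri x {w | InU Q D w} ∧ w.length < n}.ncard : ℝ))

/-- **Job B1** (one desubstitution step for words outside `U`; helper68).  `l P`, `r P`: longest common left /
right extension of the images over all contexts in `P`; `g P`: the contexts of the extended image. -/
def JobB1 : Prop := ∀ (A B : Type) [Fintype A] [Fintype B] [DecidableEq A] [DecidableEq B]
  (φ : A → List B) (y : ℤ → A) (x : ℤ → B) (c : ℤ → ℤ) (Λ K Q0 : ℤ),
  IsSub φ y x c → Syn y x c Λ K Q0 → ∀ Q : ℕ, Q0 ≤ Q →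
  ∃ D0 : ℕ, ∀ D : ℕ, D0 ≤ D →
    ∃ (g : Finset (Ctx A D) → Finset (Ctx B D)) (l r : Finset (Ctx A D) → List B) (n1 : ℕ),
      (∀ P, ((l P).length : ℤ) ≤ K ∧ ((r P).length : ℤ) ≤ K) ∧
      (∀ P z, Bsp P → z ∈ ZZ y D P → ∀ i, wd y i z.length = z → ctx y D i (i + z.length) ∈ P →
        wd x (c i - (l P).length) (l P ++ z.flatMap φ ++ r P).length = l P ++ z.flatMap φ ++ r P) ∧
      (∀ P z, Bsp P → z ∈ ZZ y D P → Bsp (g P) ∧ l P ++ z.flatMap φ ++ r P ∈ ZZ x D (g P)) ∧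
      (∀ P w, Bsp P → w ∈ ZZ x D P → n1 ≤ w.length → ¬ InU Q D w →
        ∃ P' z, Bsp P' ∧ g P' = P ∧ z ∈ ZZ y D P' ∧ w = l P' ++ z.flatMap φ ++ r P') ∧
      (∀ P1 P2 z1 z2, Bsp P1 → Bsp P2 → g P1 = g P2 → z1 ∈ ZZ y D P1 → z2 ∈ ZZ y D P2 →
        l P1 ++ z1.flatMap φ ++ r P1 = l P2 ++ z2.flatMap φ ++ r P2 →
        n1 ≤ (l P1 ++ z1.flatMap φ ++ r P1).length → ¬ InU Q D (l P1 ++ z1.flatMap φ ++ r P1) →
        z1 = z2 ∧ l P1 = l P2 ∧ r P1 = r P2)

/-- **Job F** (assembly at the level of `x`).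

Paper proof.  Take `Q ≥ Λ Q0` (so `Q ≥ Q0`, as `Λ ≥ 2`), `D` larger than all thresholds of JobB1 (for `φ` and for `ψ`),
JobB2 (for `(y,x,c)` and for `(y,y,e)`) and JobT; `U = {w | InU Q D w}`; `L0` from JobB2.
(0) Dictionary: `InU Q D (wd x i n) ↔ ∃ q, 1 ≤ q ∧ q ≤ Q ∧ Per x q (i + D) (i + n - D)`; if `z ∈ ZZ y D P`, `Bsp P`, then
every occurrence `p` of `z` with context in `P` (there is one, `P ≠ ∅`) satisfies the hypotheses of (E) in JobB2.
(1) `T = Finset (Ctx A D)`, `S P = {z | Bsp P ∧ z ∈ ZZ y D P ∧ ¬ InU Q D z ∧ L ≤ z.length}` with `g, l, r` of JobB1 for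
`ψ`; JobA applies (fwd: E2; bwd: JobB1 + E, `|w| ≥ Λ L + 2K + n1` forces `|z| ≥ L`; inj: uniqueness part of JobB1).  So
`n ↦ #{z ∈ S P : |φ(z)| + κ < n}` is good for all `P, κ`.
(2) Moebius: for every finite `X` and `f : Finset X → ℤ` there is `μ` with `f E = Σ_{P ⊆ E} μ P`, and `μ P = 0` if `f`
vanishes on all subsets of `P` (`μ P := f P - Σ_{P' ⊂ P} μ P'`, strong induction).
(3) For every `P` with `Bsp P`: `N_P(n) = #{w ∈ ZZ x D P : ¬ InU Q D w, |w| < n}` is good.  With `g, l, r` of JobB1 for `φ`: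
long `w` correspond bijectively (bwd, fwd, uniqueness; E, E2) to pairs `(z, (l₀, r₀))` with
`h_{l₀,r₀}(E(z)) = 1`, `¬ InU Q D z`, where `E(z) : Finset (Ctx A D)` is the set of contexts of `z` (`z ∈ ZZ y D P' ↔ P' ⊆ E(z)`)
and `h_{l₀,r₀}(E) = 1` iff some `P' ⊆ E` has `Bsp P'`, `g P' = P`, `l P' = l₀`, `r P' = r₀`, else `0`; `|w| = |φ(z)| + |l₀| + |r₀|`.
By (2) (note `h` vanishes on non-bispecial sets) `N_P(n) = O(1) + Σ_{(l₀,r₀)} Σ_{P''} μ(P'') #{z ∈ S P'' : |φ(z)| + |l₀| + |r₀| < n}`.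
(4) `mm x w = f(E(w))` for `w ∈ Lang x`, where `f E` = (number of pairs of first letters) - (left) - (right) + 1 for
`E ≠ ∅` and `f ∅ = 0`; `f` vanishes on non-bispecial sets; so by (2)
`Σ_{w ∈ V} mm x w = Σ_P μ(P) N_P(n)`.
(5) JobC, JobC2, JobT. -/
def JobF : Prop := JobA → JobB1 → JobB2 → JobC → JobC2 → JobR → JobT →
  ∀ (A B : Type) [Fintype A] [Fintype B] [DecidableEq A] [DecidableEq B]
  (φ : A → List B) (ψ : A → List A) (y : ℤ → A) (x : ℤ → B) (c e : ℤ → ℤ)
  (Λ K Q0 : ℤ), IsSub φ y x c → IsSub ψ y y e → Syn y y e Λ K Q0 → Syn y x c Λ K Q0 →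
  GoodF (fun n => ((LF x (n + 1)).card : ℝ) - ((LF x n).card : ℝ))

end Pool.Agent.W2helper68.DL
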