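import Pool.Agent.W2helper68.DL.Basic

/-!
# Synchronization
-/

set_option autoImplicit false

namespace Pool.Agent.W2helper68.DL

/-- Substitution structure with bounded decoding in both directions and determinism of overhangs. -/
structure Dec {A B : Type} (y : ℤ → A) (x : ℤ → B) (c : ℤ → ℤ) (Λ K : ℤ) : Prop extends
    Cut y x c Λ where
  K0 : 0 ≤ K
  DR : ∀ p q, Agr x (c p) (c q) 0 K → y p = y q
  DL : ∀ p q, Agr x (c p) (c q) (-K) 0 → y (p - 1) = y (q - 1)
  OV : ∀ h, 1 ≤ h → h ≤ Λ → ∀ p q p' q', Agr x (c p) (c q - h) 0 K → Agr x (c p') (c q' - h) 0 K →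
    Agr x (c q - h) (c q' - h) 0 h → y p = y p'

/-- zipper state -/
structure ZS where
  i : ℤ
  p : ℤ
  j : ℤ
  q : ℤ

section
variable {A B : Type} {y : ℤ → A} {x : ℤ → B} {c : ℤ → ℤ} {Λ K : ℤ}

def ZS.m (c : ℤ → ℤ) (z : ZS) : ℤ := c z.p - z.i
def ZS.d (c : ℤ → ℤ) (z : ZS) : ℤ := (c z.q - z.j) - (c z.p - z.i)

def zstep (c : ℤ → ℤ) (z : ZS) : ZS :=
  if c (z.p + 1) - z.i < c z.q - z.j then ⟨z.i, z.p + 1, z.j, z.q⟩ else ⟨z.j, z.q, z.i, z.p + 1⟩

def Inv (c : ℤ → ℤ) (Λ i j : ℤ) (z : ZS) : Prop :=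
  ((z.i = i ∧ z.j = j) ∨ (z.i = j ∧ z.j = i)) ∧ 0 ≤ z.m c ∧ 1 ≤ z.d c ∧ z.d c ≤ Λ

def Same (x : ℤ → B) (c : ℤ → ℤ) (z z' : ZS) : Prop :=
  z.d c = z'.d c ∧ Agr x (c z.p) (c z'.p) 0 (z.d c)

theorem zstep_inv (h : Cut y x c Λ) {i j n : ℤ}
    (hno : ¬ ∃ p q, 0 ≤ c p - i ∧ c p - i ≤ n ∧ c p - i = c q - j) {z : ZS}
    (hz : Inv c Λ i j z) (hm : z.m c + Λ ≤ n) :
    Inv c Λ i j (zstep c z) ∧ z.m c < (zstep c z).m c ∧ (zstep c z).m c ≤ z.m c + z.d c := by
  obtain ⟨ho, h0, h1, h2⟩ := hz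
  have hlo := h.lo z.p
  have hhi := h.hi z.p
  have hno' : c (z.p + 1) - z.i ≠ c z.q - z.j := by
    intro e
    apply hno
    unfold ZS.m at *
    unfold ZS.d at *
    rcases ho with ⟨e1, e2⟩ | ⟨e1, e2⟩
    · exact ⟨z.p + 1, z.q, by omega, by omega, by omega⟩
    · exact ⟨z.q, z.p + 1, by omega, by omega, by omega⟩
  unfold zstep Inv ZS.m ZS.d at *
  split_ifs with hc
  · simp only
    refine ⟨⟨ho, by omega, by omega, by omega⟩, by omega, by omega⟩
  · simp only
    refine ⟨⟨by tauto, by omega, by omega, by omega⟩, by omega, by omega⟩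

theorem zstep_same (h : Dec y x c Λ K) {i j n : ℤ} (hag : Agr x i j 0 n)
    {z z' : ZS}
    (hz : Inv c Λ i j z) (hm : z.m c + K + Λ ≤ n)
    (hz' : Inv c Λ i j z') (hm' : z'.m c + K + Λ ≤ n) (hs : Same x c z z') :
    Same x c (zstep c z) (zstep c z') ∧
      (zstep c z').m c - (zstep c z).m c = z'.m c - z.m c := by
  have hK := h.K0
  obtain ⟨ho, h0, h1, h2⟩ := hz
  obtain ⟨ho', h0', h1', h2'⟩ := hz'
  obtain ⟨hs1, hs2⟩ := hs
  have ag : ∀ t, 0 ≤ t → z.m c + t < n → x (c z.p + t) = x (c z.q - z.d c + t) := by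
    intro t ht1 ht2
    unfold ZS.m ZS.d at *
    have := hag (c z.p - z.i + t) (by omega) (by omega)
    rcases ho with ⟨e1, e2⟩ | ⟨e1, e2⟩
    · rw [← e1, ← e2] at this
      rw [show z.i + (c z.p - z.i + t) = c z.p + t by ring] at this
      rw [this]; congr 1; ring
    · rw [← e1, ← e2] at this
      rw [show z.i + (c z.p - z.i + t) = c z.p + t by ring] at this
      rw [← this]; congr 1; ring
  have ag' : ∀ t, 0 ≤ t → z'.m c + t < n → x (c z'.p + t) = x (c z'.q - z'.d c + t) := by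
    intro t ht1 ht2
    unfold ZS.m ZS.d at *
    have := hag (c z'.p - z'.i + t) (by omega) (by omega)
    rcases ho' with ⟨e1, e2⟩ | ⟨e1, e2⟩
    · rw [← e1, ← e2] at this
      rw [show z'.i + (c z'.p - z'.i + t) = c z'.p + t by ring] at this
      rw [this]; congr 1; ring
    · rw [← e1, ← e2] at this
      rw [show z'.i + (c z'.p - z'.i + t) = c z'.p + t by ring] at this
      rw [← this]; congr 1; ring
  have hy : y z.p = y z'.p := by
    refine h.OV (z.d c) h1 h2 z.p z.q z'.p z'.q ?_ ?_ ?_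
    · intro t ht1 ht2; exact ag t ht1 (by omega)
    · intro t ht1 ht2
      rw [hs1]
      exact ag' t ht1 (by omega)
    · intro t ht1 ht2
      rw [← ag t ht1 (by omega), hs2 t ht1 ht2, ag' t ht1 (by omega), hs1]
  obtain ⟨hl, hb⟩ := h.det _ _ hy
  unfold zstep Same ZS.m ZS.d at *
  by_cases hc : c (z.p + 1) - z.i < c z.q - z.j
  · have hc' : c (z'.p + 1) - z'.i < c z'.q - z'.j := by omega
    rw [if_pos hc, if_pos hc']
    simp only
    have hlo := h.lo z.p
    refine ⟨⟨by omega, ?_⟩, by omega⟩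
    exact Agr.shift' hs2 (by omega) (by omega) (by omega)
  · have hc' : ¬ c (z'.p + 1) - z'.i < c z'.q - z'.j := by omega
    rw [if_neg hc, if_neg hc']
    simp only
    refine ⟨⟨by omega, fun t ht1 ht2 => ?_⟩, by omega⟩
    have hhi := h.hi z.p
    have hhi' := h.hi z'.p
    have e1 := ag ((c z.q - z.j) - (c z.p - z.i) + t) (by omega) (by omega)
    have e2 := ag' ((c z'.q - z'.j) - (c z'.p - z'.i) + t) (by omega) (by omega)
    have e3 := hb ((c z.q - z.j) - (c z.p - z.i) + t) (by omega) (by omega)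
    rw [show c z.q + t = c z.q - (c z.q - z.j - (c z.p - z.i)) + (c z.q - z.j - (c z.p - z.i) + t) by
      ring, ← e1, e3, hs1, e2]
    congr 1; ring

/-- If two occurrences of a word have no common cut then the word is periodic up to margins. -/
theorem Dec.sync_or_per [Finite B] (h : Dec y x c Λ K) : ∃ Q0 N0 : ℤ, 1 ≤ Q0 ∧ 0 ≤ N0 ∧
    ∀ i j n, Agr x i j 0 n → (¬ ∃ p q, 0 ≤ c p - i ∧ c p - i ≤ n ∧ c p - i = c q - j) →
      ∃ q, 1 ≤ q ∧ q ≤ Q0 ∧ Per x q (i + N0) (i + n - N0) := by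
  classical
  have hΛ := h.two_le
  have hK := h.K0
  have : Fintype B := Fintype.ofFinite B
  set M : ℕ := Fintype.card (Fin (Λ.toNat + 1) × (Fin Λ.toNat → Option B)) with hM
  refine ⟨Λ * (M + 2), Λ * (M + 4) + K, by nlinarith, by positivity, ?_⟩
  intro i j n hag hno
  by_cases hn : n ≤ 2 * (Λ * (M + 4) + K)
  · refine ⟨1, le_rfl, by nlinarith, fun t h1 h2 => ?_⟩
    omega
  push Not at hn
  -- initial state
  obtain ⟨p0, hp1, hp2⟩ := h.exists_cut i
  obtain ⟨q0, hq1, hq2⟩ := h.exists_cut j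
  have hp3 : c p0 ≤ c (p0 - 1) + Λ := by
    have := h.hi (p0 - 1); rwa [show p0 - 1 + 1 = p0 by ring] at this
  have hq3 : c q0 ≤ c (q0 - 1) + Λ := by
    have := h.hi (q0 - 1); rwa [show q0 - 1 + 1 = q0 by ring] at this
  have hMΛ : Λ * (M + 4) = Λ * M + 4 * Λ := by ring
  have hMΛ2 : Λ * (M + 2) = Λ * M + 2 * Λ := by ring
  have hMp : 0 ≤ Λ * M := by positivity
  have hz0 : ∃ z0 : ZS, Inv c Λ i j z0 ∧ z0.m c ≤ Λ := by
    have hne : c p0 - i ≠ c q0 - j := by
      intro e
      exact hno ⟨p0, q0, by omega, by omega, e⟩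
    by_cases hc : c p0 - i < c q0 - j
    · refine ⟨⟨i, p0, j, q0⟩, ?_, ?_⟩ <;> simp only [Inv, ZS.m, ZS.d]
      · refine ⟨by simp, by omega, by omega, by omega⟩
      · omega
    · refine ⟨⟨j, q0, i, p0⟩, ?_, ?_⟩ <;> simp only [Inv, ZS.m, ZS.d]
      · refine ⟨by simp, by omega, by omega, by omega⟩
      · omega
  obtain ⟨z0, hi0, hm0⟩ := hz0
  set z : ℕ → ZS := fun s => (zstep c)^[s] z0 with hz
  have hzs : ∀ s, z (s + 1) = zstep c (z s) := by
    intro s
    simp only [hz]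
    rw [Function.iterate_succ_apply']
  -- the first M+1 states
  have hfirst : ∀ s : ℕ, s ≤ M + 1 → Inv c Λ i j (z s) ∧ (z s).m c ≤ Λ * (s + 1) := by
    intro s
    induction s with
    | zero => intro _; exact ⟨hi0, by simpa [hz] using hm0⟩
    | succ s ih =>
      intro hs
      obtain ⟨h1, h2⟩ := ih (by omega)
      have hs' : (s : ℤ) ≤ M := by omega
      have h3 : Λ * ((s : ℤ) + 1) ≤ Λ * (M + 1) := by nlinarith
      have h4 : Λ * ((M : ℤ) + 1) = Λ * M + Λ := by ring
      obtain ⟨h5, h6, h7⟩ := zstep_inv h.toCut hno h1 (by omega)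
      rw [hzs]
      refine ⟨h5, ?_⟩
      have := h1.2.2.2
      push_cast
      have e : Λ * ((s : ℤ) + 1 + 1) = Λ * (s + 1) + Λ := by ring
      omega
  -- pigeonhole
  let f : Fin (M + 1) → Fin (Λ.toNat + 1) × (Fin Λ.toNat → Option B) := fun s =>
    (Fin.ofNat (Λ.toNat + 1) ((z s).d c).toNat,
      fun t => if (t : ℤ) < (z s).d c then some (x (c (z s).p + t)) else none)
  obtain ⟨s, s', hne, hf⟩ := Fintype.exists_ne_map_eq_of_card_lt f (by simp [hM])
  -- wlog s < s'
  have hex : ∃ s s' : ℕ, s < s' ∧ s' ≤ M ∧ Same x c (z s) (z s') := by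
    have same : ∀ s s' : Fin (M + 1), f s = f s' → Same x c (z s) (z s') := by
      intro s s' e
      obtain ⟨i1, -⟩ := hfirst s (by have := s.2; omega)
      obtain ⟨i2, -⟩ := hfirst s' (by have := s'.2; omega)
      obtain ⟨-, a1, a2, a3⟩ := i1
      obtain ⟨-, b1, b2, b3⟩ := i2
      have e1 := congrArg Prod.fst e
      have e2 := congrArg Prod.snd e
      simp only [f] at e1 e2
      have e3 := congrArg Fin.val e1
      simp only [Fin.ofNat] at e3
      rw [Nat.mod_eq_of_lt (by omega), Nat.mod_eq_of_lt (by omega)] at e3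
      have e4 : (z s).d c = (z s').d c := by omega
      refine ⟨e4, fun t ht1 ht2 => ?_⟩
      have e5 := congrFun e2 ⟨t.toNat, by omega⟩
      simp only at e5
      have ht : (t.toNat : ℤ) = t := Int.toNat_of_nonneg ht1
      rw [ht, if_pos ht2, if_pos (by omega)] at e5
      exact Option.some.inj e5
    rcases lt_or_gt_of_ne hne with hlt | hlt
    · exact ⟨s, s', hlt, by have := s'.2; omega, same _ _ hf⟩
    · exact ⟨s', s, hlt, by have := s.2; omega, same _ _ hf.symm⟩
  obtain ⟨s, s', hss, hs'M, hsame⟩ := hex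
  obtain ⟨is, ms⟩ := hfirst s (by omega)
  obtain ⟨is', ms'⟩ := hfirst s' (by omega)
  -- monotonicity
  have hmono : ∀ r : ℕ, s + r ≤ M + 1 → (z s).m c + r ≤ (z (s + r)).m c := by
    intro r
    induction r with
    | zero => intro _; simp
    | succ r ih =>
      intro hr
      have h1 := ih (by omega)
      obtain ⟨h2, h3⟩ := hfirst (s + r) (by omega)
      have hs2 : ((s + r : ℕ) : ℤ) ≤ M := by omega
      have h3' : Λ * (((s + r : ℕ) : ℤ) + 1) ≤ Λ * (M + 1) := by nlinarith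
      have h4 : Λ * ((M : ℤ) + 1) = Λ * M + Λ := by ring
      obtain ⟨h5, h6, h7⟩ := zstep_inv h.toCut hno h2 (by omega)
      rw [← add_assoc, hzs]
      push_cast
      omega
  have hq1' : 1 ≤ (z s').m c - (z s).m c := by
    have := hmono (s' - s) (by omega)
    rw [show s + (s' - s) = s' by omega] at this
    have : ((s' - s : ℕ) : ℤ) = s' - s := by omega
    omega
  have hs'1 : Λ * ((s' : ℤ) + 1) ≤ Λ * (M + 1) := by
    have : (s' : ℤ) ≤ M := by omega
    nlinarith
  have hM1 : Λ * ((M : ℤ) + 1) = Λ * M + Λ := by ring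
  set q : ℤ := (z s').m c - (z s).m c with hqdef
  refine ⟨q, hq1', ?_, ?_⟩
  · have := is.2.1
    omega
  intro t ht1 ht2
  set τ := t - i with hτ
  have hs0 := is.2.1
  -- main induction
  have main : ∀ r : ℕ, (∃ r' : ℕ, Same x c (z (s + r')) (z (s' + r')) ∧
        (z (s' + r')).m c - (z (s + r')).m c = q ∧ Inv c Λ i j (z (s + r')) ∧
        Inv c Λ i j (z (s' + r')) ∧ (z (s + r')).m c ≤ τ ∧ τ < (z (s + r')).m c + (z (s + r')).d c) ∨
      (Same x c (z (s + r)) (z (s' + r)) ∧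
        (z (s' + r)).m c - (z (s + r)).m c = q ∧ Inv c Λ i j (z (s + r)) ∧
        Inv c Λ i j (z (s' + r)) ∧ (z (s + r)).m c ≤ τ ∧ r ≤ (z (s + r)).m c) := by
    intro r
    induction r with
    | zero =>
      right
      refine ⟨hsame, rfl, is, is', ?_, by simpa using hs0⟩
      simp only [add_zero]; omega
    | succ r ih =>
      rcases ih with ih | ⟨h1, h2, h3, h4, h5, h6⟩
      · exact Or.inl ih
      · by_cases hc : τ < (z (s + r)).m c + (z (s + r)).d c
        · exact Or.inl ⟨r, h1, h2, h3, h4, h5, hc⟩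
        · right
          obtain ⟨h7, h8⟩ := zstep_same h hag h3 (by omega) h4 (by omega) h1
          obtain ⟨h9, h10, h11⟩ := zstep_inv h.toCut hno h3 (by omega)
          obtain ⟨h12, h13, h14⟩ := zstep_inv h.toCut hno h4 (by omega)
          rw [← add_assoc, ← add_assoc, hzs, hzs]
          refine ⟨h7, by omega, h9, h12, by omega, by push_cast; omega⟩
  rcases main (τ + 1).toNat with ⟨r, h1, h2, h3, h4, h5, h6⟩ | ⟨h1, h2, h3, h4, h5, h6⟩
  · have hτ0 : 0 ≤ τ := by omega
    have e1 := h1.2 (τ - (z (s + r)).m c) (by omega) (by omega)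
    have a1 : x (c (z (s + r)).p + (τ - (z (s + r)).m c)) = x t := by
      rw [show c (z (s + r)).p + (τ - (z (s + r)).m c) = (z (s + r)).i + τ by unfold ZS.m; ring]
      rcases h3.1 with ⟨e, -⟩ | ⟨e, -⟩
      · rw [e]; congr 1; omega
      · rw [e, ← hag τ hτ0 (by omega)]; congr 1; omega
    have a2 : x (c (z (s' + r)).p + (τ - (z (s + r)).m c)) = x (t + q) := by
      rw [show c (z (s' + r)).p + (τ - (z (s + r)).m c) = (z (s' + r)).i + (τ + q) by
        unfold ZS.m at *; omega]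
      rcases h4.1 with ⟨e, -⟩ | ⟨e, -⟩
      · rw [e]; congr 1; omega
      · rw [e, ← hag (τ + q) (by omega) (by omega)]; congr 1; omega
    rw [← a1, ← a2, e1]
  · omega

/-- Symmetric package: decoding plus synchronization of all central cuts. -/
structure Syn (y : ℤ → A) (x : ℤ → B) (c : ℤ → ℤ) (Λ K Q0 : ℤ) : Prop extends Cut y x c Λ where
  K0 : 0 ≤ K
  Q01 : 1 ≤ Q0
  DR : ∀ p q, Agr x (c p) (c q) 0 K → y p = y q
  DL : ∀ p q, Agr x (c p) (c q) (-K) 0 → y (p - 1) = y (q - 1)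
  SC : ∀ i j n, Agr x i j 0 n → (¬ ∃ q, 1 ≤ q ∧ q ≤ Q0 ∧ Per x q (i + K) (i + n - K)) →
    ∀ p, i + K ≤ c p → c p ≤ i + n - K →
      ∃ q, c q - j = c p - i

/-- going right from a common cut -/
theorem match_right (h : Cut y x c Λ) (K : ℤ)
    (DR : ∀ p q, Agr x (c p) (c q) 0 K → y p = y q) {i j n p q : ℤ}
    (hag : Agr x i j 0 n) (h0 : 0 ≤ c p - i) (he : c p - i = c q - j) (s : ℕ)
    (hs : ∀ r : ℕ, r < s → c (p + r) - i + K ≤ n) :
    c (p + s) - i = c (q + s) - j ∧ ∀ r : ℕ, r < s → y (p + r) = y (q + r) := by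
  induction s with
  | zero => simp; exact he
  | succ s ih =>
    obtain ⟨h1, h2⟩ := ih (fun r hr => hs r (by omega))
    have hs' := hs s (by omega)
    have hge : c p ≤ c (p + s) := h.mono (by omega)
    have hy : y (p + s) = y (q + s) := by
      refine DR _ _ (hag.shift' (by omega) (by omega) (by omega))
    obtain ⟨h3, h4⟩ := h.det _ _ hy
    refine ⟨?_, fun r hr => ?_⟩
    · push_cast
      rw [show p + ((s : ℤ) + 1) = p + s + 1 by ring, show q + ((s : ℤ) + 1) = q + s + 1 by ring]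
      omega
    · rcases Nat.lt_succ_iff_lt_or_eq.1 hr with hr | hr
      · exact h2 r hr
      · rw [hr]; exact hy

/-- going left from a common cut -/
theorem match_left (h : Cut y x c Λ) (K : ℤ)
    (DL : ∀ p q, Agr x (c p) (c q) (-K) 0 → y (p - 1) = y (q - 1)) {i j n p q : ℤ}
    (hag : Agr x i j 0 n) (h0 : c p - i ≤ n) (he : c p - i = c q - j) (s : ℕ)
    (hs : ∀ r : ℕ, r < s → K ≤ c (p - r) - i) :
    c (p - s) - i = c (q - s) - j ∧ ∀ r : ℕ, r < s → y (p - 1 - r) = y (q - 1 - r) := by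
  induction s with
  | zero => simp; exact he
  | succ s ih =>
    obtain ⟨h1, h2⟩ := ih (fun r hr => hs r (by omega))
    have hs' := hs s (by omega)
    have hge : c (p - s) ≤ c p := h.mono (by omega)
    have hy : y (p - s - 1) = y (q - s - 1) := by
      refine DL _ _ (hag.shift' (by omega) (by omega) (by omega))
    obtain ⟨h3, h4⟩ := h.det _ _ hy
    refine ⟨?_, fun r hr => ?_⟩
    · push_cast
      rw [show p - s - 1 + 1 = p - s by ring, show q - s - 1 + 1 = q - s by ring] at h3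
      rw [show p - ((s : ℤ) + 1) = p - s - 1 by ring, show q - ((s : ℤ) + 1) = q - s - 1 by ring]
      omega
    · rcases Nat.lt_succ_iff_lt_or_eq.1 hr with hr | hr
      · exact h2 r hr
      · rw [hr, show p - 1 - (s : ℤ) = p - s - 1 by ring, show q - 1 - (s : ℤ) = q - s - 1 by ring]
        exact hy

theorem Dec.syn [Finite B] (h : Dec y x c Λ K) : ∃ K' Q0 : ℤ, ∀ K'' Q0' : ℤ, K' ≤ K'' → Q0 ≤ Q0' →
    Syn y x c Λ K'' Q0' := by
  obtain ⟨Q0, N0, hQ, hN, hS⟩ := h.sync_or_per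
  have hK := h.K0
  refine ⟨K + N0, Q0, fun K'' Q0' hK'' hQ0' => ?_⟩
  refine { h.toCut with
    K0 := by omega
    Q01 := by omega
    DR := fun p q hh => h.DR p q (hh.mono le_rfl (by omega))
    DL := fun p q hh => h.DL p q (hh.mono (by omega) le_rfl)
    SC := ?_ }
  intro i j n hag hper p hp1 hp2
  have hcom : ∃ p q, 0 ≤ c p - i ∧ c p - i ≤ n ∧ c p - i = c q - j := by
    by_contra hno
    obtain ⟨q, hq1, hq2, hq3⟩ := hS i j n hag hno
    exact hper ⟨q, hq1, by omega, hq3.mono (by omega) (by omega)⟩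
  obtain ⟨p0, q0, h1, h2, h3⟩ := hcom
  by_cases hc : p0 ≤ p
  · have := (match_right h.toCut K h.DR hag h1 h3 (p - p0).toNat (fun r hr => by
      have hr' : (r : ℤ) < p - p0 := by omega
      have := h.toCut.lt_iff.2 (show p0 + (r : ℤ) < p by omega)
      omega)).1
    rw [show ((p - p0).toNat : ℤ) = p - p0 from Int.toNat_of_nonneg (by omega)] at this
    rw [show p0 + (p - p0) = p by ring] at this
    exact ⟨q0 + (p - p0), this.symm⟩
  · have := (match_left h.toCut K h.DL hag h2 h3 (p0 - p).toNat (fun r hr => by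
      have hr' : (r : ℤ) < p0 - p := by omega
      have := h.toCut.lt_iff.2 (show p < p0 - (r : ℤ) by omega)
      omega)).1
    rw [show ((p0 - p).toNat : ℤ) = p0 - p from Int.toNat_of_nonneg (by omega)] at this
    rw [show p0 - (p0 - p) = p by ring] at this
    exact ⟨q0 - (p0 - p), this.symm⟩

/-- reversal -/
def rv {B : Type} (x : ℤ → B) : ℤ → B := fun t => x (-1 - t)
def rvc (c : ℤ → ℤ) : ℤ → ℤ := fun p => - c (-p)

theorem Agr.rv {i j a b : ℤ} (h : Agr x i j a b) : Agr (rv x) (-i) (-j) (-b) (-a) := by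
  intro t h1 h2
  unfold DL.rv
  have := h (-1 - t) (by omega) (by omega)
  rw [show -1 - (-i + t) = i + (-1 - t) by ring, show -1 - (-j + t) = j + (-1 - t) by ring]
  exact this

theorem rv_rv (x : ℤ → B) : rv (rv x) = x := by
  funext t; simp [rv]

theorem rvc_rvc (c : ℤ → ℤ) : rvc (rvc c) = c := by
  funext t; simp [rvc]

theorem Per.rv {q a b : ℤ} (h : Per x q a b) : Per (rv x) q (-b) (-a) := by
  intro t h1 h2
  unfold DL.rv
  have := h (-1 - (t + q)) (by omega) (by omega)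
  rw [this]; congr 1; ring

theorem Syn.rev {Q0 : ℤ} (h : Syn y x c Λ K Q0) : Syn (rv y) (rv x) (rvc c) Λ K Q0 where
  lo p := by
    have := h.lo (-p - 1)
    rw [show -p - 1 + 1 = -p by ring] at this
    unfold rvc
    rw [show -(p + 1) = -p - 1 by ring]
    omega
  hi p := by
    have := h.hi (-p - 1)
    rw [show -p - 1 + 1 = -p by ring] at this
    unfold rvc
    rw [show -(p + 1) = -p - 1 by ring]
    omega
  det p q hpq := by
    unfold rv at hpq
    obtain ⟨h1, h2⟩ := h.det (-1 - p) (-1 - q) hpq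
    unfold rvc
    rw [show -1 - p + 1 = -p by ring, show -1 - q + 1 = -q by ring] at h1
    rw [show -1 - p + 1 = -p by ring] at h2
    rw [show -(p + 1) = -1 - p by ring, show -(q + 1) = -1 - q by ring]
    refine ⟨by omega, ?_⟩
    have := (h2.shift' (i' := c (-p)) (j' := c (-q)) (a' := -(c (-p) - c (-1 - p))) (b' := 0)
      (by omega) (by omega) (by omega)).rv
    exact this.mono (by omega) (by omega)
  K0 := h.K0
  Q01 := h.Q01
  DR p q hpq := by
    unfold rvc at hpq
    have := hpq.rv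
    rw [rv_rv] at this
    simp only [neg_neg, neg_zero] at this
    have := h.DL _ _ this
    unfold rv
    rw [show -1 - p = -p - 1 by ring, show -1 - q = -q - 1 by ring]
    exact this
  DL p q hpq := by
    unfold rvc at hpq
    have := hpq.rv
    rw [rv_rv] at this
    simp only [neg_neg, neg_zero] at this
    have := h.DR _ _ this
    unfold rv
    rw [show -1 - (p - 1) = -p by ring, show -1 - (q - 1) = -q by ring]
    exact this
  SC i j n hag hper p hp1 hp2 := by
    unfold rvc at hp1 hp2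
    have h1 := (hag.shift' (i' := i + n) (j' := j + n) (a' := -n) (b' := 0) (by omega) (by omega)
      (by omega)).rv
    rw [rv_rv] at h1
    simp only [neg_neg, neg_zero] at h1
    obtain ⟨q, hq⟩ := h.SC (-(i + n)) (-(j + n)) n h1 (by
      rintro ⟨q, hq1, hq2, hq3⟩
      exact hper ⟨q, hq1, hq2, by
        have := hq3.rv
        exact this.mono (by omega) (by omega)⟩) (-p) (by omega) (by omega)
    refine ⟨-q, ?_⟩
    unfold rvc
    rw [neg_neg]
    omega

end

end Pool.Agent.W2helper68.DL
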