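import Pool.Agent.W2helper68.DL.Stm2

/-!
# Words of bi-infinite sequences
-/

set_option autoImplicit false

namespace Pool.Agent.W2helper68.DL

section
variable {A B : Type}

@[simp] theorem wd_length (x : ℤ → A) (i : ℤ) (n : ℕ) : (wd x i n).length = n := by simp [wd]

theorem wd_getElem (x : ℤ → A) (i : ℤ) (n : ℕ) (t : ℕ) (h : t < (wd x i n).length) :
    (wd x i n)[t] = x (i + t) := by simp [wd]

theorem wd_getElem? (x : ℤ → A) (i : ℤ) (n : ℕ) (t : ℕ) (h : t < n) :
    (wd x i n)[t]? = some (x (i + t)) := by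
  rw [List.getElem?_eq_getElem (by simpa using h), wd_getElem]

theorem wd_eq_iff (x y : ℤ → A) (i j : ℤ) (n : ℕ) :
    wd x i n = wd y j n ↔ ∀ t : ℕ, t < n → x (i + t) = y (j + t) := by
  unfold wd
  rw [List.ofFn_inj]
  constructor
  · intro h t ht
    exact congrFun h ⟨t, ht⟩
  · intro h
    funext t
    exact h t t.2

theorem wd_eq_agr {x : ℤ → A} {i j : ℤ} {n : ℕ} : wd x i n = wd x j n ↔ Agr x i j 0 n := by
  rw [wd_eq_iff]
  constructor
  · intro h t h1 h2
    have := h t.toNat (by omega)
    rwa [Int.toNat_of_nonneg h1] at this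
  · intro h t ht
    exact h t (by omega) (by omega)

theorem wd_add (x : ℤ → A) (i : ℤ) (m n : ℕ) : wd x i (m + n) = wd x i m ++ wd x (i + m) n := by
  apply List.ext_getElem
  · simp
  · intro t h1 h2
    rw [wd_getElem]
    by_cases h : t < m
    · rw [List.getElem_append_left (by simpa using h), wd_getElem]
    · rw [List.getElem_append_right (by simpa using h), wd_getElem]
      congr 1
      simp only [wd_length]
      have : ((t - m : ℕ) : ℤ) = t - m := by omega
      rw [this]; ring

theorem wd_zero (x : ℤ → A) (i : ℤ) : wd x i 0 = [] := by simp [wd]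

theorem wd_one (x : ℤ → A) (i : ℤ) : wd x i 1 = [x i] := by simp [wd]

theorem IsSub.flat {φ : A → List B} {y : ℤ → A} {x : ℤ → B} {c : ℤ → ℤ} (h : IsSub φ y x c)
    (i : ℤ) (n : ℕ) : c (i + n) = c i + (((wd y i n).flatMap φ).length : ℤ) ∧
      wd x (c i) ((wd y i n).flatMap φ).length = (wd y i n).flatMap φ := by
  induction n with
  | zero => simp [wd_zero]
  | succ n ih =>
    obtain ⟨h1, h2⟩ := ih
    have e : (wd y i (n + 1)).flatMap φ = (wd y i n).flatMap φ ++ φ (y (i + n)) := by
      rw [wd_add, wd_one, List.flatMap_append]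
      simp
    have e2 : wd x (c (i + n)) (φ (y (i + n))).length = φ (y (i + n)) := by
      apply List.ext_getElem
      · simp
      · intro t h3 h4
        rw [wd_getElem]
        exact h.val _ _ h4
    rw [e]
    refine ⟨?_, ?_⟩
    · push_cast
      rw [show i + ((n : ℤ) + 1) = i + n + 1 by ring, h.step, h1, List.length_append]
      push_cast; ring
    · rw [List.length_append, wd_add, h2, ← h1, e2]

theorem inU_wd {x : ℤ → A} {i : ℤ} {n : ℕ} {Q D : ℕ} :
    InU Q D (wd x i n) ↔ ∃ q : ℤ, 1 ≤ q ∧ q ≤ Q ∧ Per x q (i + D) (i + n - D) := by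
  constructor
  · rintro ⟨q, h1, h2, h3⟩
    refine ⟨q, by omega, by omega, fun t ht1 ht2 => ?_⟩
    have := h3 (t - i).toNat (by omega) (by rw [wd_length]; omega)
    rw [wd_getElem? _ _ _ _ (by omega), wd_getElem? _ _ _ _ (by omega)] at this
    have := Option.some.inj this
    rw [show i + ((t - i).toNat : ℤ) = t by omega,
      show i + (((t - i).toNat + q : ℕ) : ℤ) = t + q by push_cast; omega] at this
    exact this
  · rintro ⟨q, h1, h2, h3⟩
    refine ⟨q.toNat, by omega, by omega, fun t ht1 ht2 => ?_⟩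
    rw [wd_length] at ht2
    rw [wd_getElem? _ _ _ _ (by omega), wd_getElem? _ _ _ _ (by omega)]
    congr 1
    have := h3 (i + t) (by omega) (by omega)
    rw [this]
    congr 1
    push_cast; omega

theorem mem_Lang_iff {x : ℤ → A} {w : List A} : w ∈ Lang x ↔ ∃ i, wd x i w.length = w := Iff.rfl

end

end Pool.Agent.W2helper68.DL
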